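import Mathlib
import Pool.Agent.Helper96.AW.All

/-! Project AX (MP_af6c86_pr): the tails of `p_g` for fixed `g`.  Base facts from project AW. -/

namespace Pool.Agent.Helper96.AX

open Finset Filter Topology Pool.Agent.Helper26.AF Pool.Agent.Helper26.AL MeasureTheory
open Pool.Agent.Helper96.AW

theorem bAE : ∀ θ δ : ℝ, 0 < θ → 0 < δ → ∃ C q : ℝ, 0 < C ∧ 0 < q ∧ q < 1 ∧ ∀ s : ℕ, 1 ≤ s →
    ∀ x : ℝ, 0 < x → θ ^ s * (ee s * ww s x) ≤ C * q ^ s * Real.exp ((1 + δ) * θ ^ 2 * x ^ 3 / 24) :=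
  AE.t Pool.Agent.Helper38.AW.AA.t

theorem bAF : ∀ l : ℝ, Summable (fun s : ℕ => ee s * JJ l s) := AF.t AC.t bAE

theorem bAH : ∀ (l : ℝ) (s : ℕ), 1 ≤ s →
    IntegrableOn (fun x => ww s x * Real.exp (-(FF x l)) * p0 (l - x)) (Set.Ioi 0) ∧
    PP l s = ∫ x in Set.Ioi (0 : ℝ), ww s x * Real.exp (-(FF x l)) * p0 (l - x) :=
  AH.t AC.t (AD.t AC.t) (AG.t AB.t bAF).2.1

theorem bNC : ∀ l : ℝ, Summable (fun r : ℕ => |dd r| * JJ l r) ∧
    Tendsto (fun n : ℕ => Pr (pc l n) (fun G : SimpleGraph (Fin n) => ZZ G = 0)) atTop (𝓝 (p0 l)) :=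
  Pool.Agent.Helper25.AW.NC.t NA.t NB.t

theorem bAI : (∀ l : ℝ, 0 ≤ p0 l ∧ p0 l ≤ 1) ∧ ∃ M : ℝ, 0 < M ∧ ∀ l ≤ -M, 1 / 2 ≤ p0 l :=
  AI.t AB.t AC.t bAF (fun l => (bNC l).2)

lemma JJ_nonneg (l : ℝ) (s : ℕ) : 0 ≤ JJ l s := AG.JJ_nonneg l s

lemma ee_pos (s : ℕ) : 0 < ee s := AB.ee_pos s

/-- Integral of `x^(b-1) exp (-l^2 x/2)`. -/
lemma int_gam {b l : ℝ} (hb : 0 < b) (hl : l < 0) :
    ∫ x in Set.Ioi (0 : ℝ), x ^ (b - 1) * Real.exp (-(l ^ 2 * x / 2)) = (2 / l ^ 2) ^ b * Real.Gamma b := by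
  have hl0 : l ≠ 0 := hl.ne
  have hl2 : 0 < l ^ 2 / 2 := by positivity
  have h := Real.integral_rpow_mul_exp_neg_mul_Ioi hb hl2
  rw [one_div_div] at h
  rw [← h]
  refine setIntegral_congr_fun measurableSet_Ioi fun x _ => ?_
  show x ^ (b - 1) * Real.exp (-(l ^ 2 * x / 2)) = x ^ (b - 1) * Real.exp (-(l ^ 2 / 2 * x))
  congr 3
  ring

lemma int_gam' {b l : ℝ} (hb : 0 < b) (hl : l < 0) :
    IntegrableOn (fun x => x ^ (b - 1) * Real.exp (-(l ^ 2 * x / 2))) (Set.Ioi 0) := by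
  by_contra h
  have h1 := int_gam hb hl
  rw [integral_undef h] at h1
  have h2 : 0 < (2 / l ^ 2) ^ b * Real.Gamma b := by
    have hl0 : l ≠ 0 := hl.ne
    have : 0 < l ^ 2 := by positivity
    have := Real.Gamma_pos_of_pos hb
    positivity
  linarith

lemma tail_pt {k : ℕ} (hk : 1 ≤ k) : ∃ C q : ℝ, 0 < C ∧ 0 < q ∧ q < 1 ∧ ∀ s : ℕ, k ≤ s → ∀ x : ℝ, 0 < x →
    ee s * ww s x ≤ C * q ^ s * (x ^ (3 * (k : ℝ) / 2 - 1) * Real.exp (x ^ 3 / 12)) := by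
  obtain ⟨C, q, hC, hq0, hq1, h⟩ := bAE 1 1 one_pos one_pos
  have h' : ∀ s : ℕ, 1 ≤ s → ∀ x : ℝ, 0 < x → ee s * ww s x ≤ C * q ^ s * Real.exp (x ^ 3 / 12) := by
    intro s hs x hx
    have := h s hs x hx
    rw [one_pow, one_mul] at this
    refine this.trans (le_of_eq ?_)
    congr 2
    ring
  refine ⟨C * Real.exp (1 / 12), q, by positivity, hq0, hq1, fun s hs x hx => ?_⟩
  have hk0 : (1 : ℝ) ≤ k := by exact_mod_cast hk
  have hks : (k : ℝ) ≤ s := by exact_mod_cast hs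
  rcases le_or_gt 1 x with h1 | h1
  · refine (h' s (by omega) x hx).trans ?_
    have h2 : 1 ≤ x ^ (3 * (k : ℝ) / 2 - 1) := Real.one_le_rpow h1 (by linarith)
    have h3 : 1 ≤ Real.exp (1 / 12 : ℝ) := Real.one_le_exp (by norm_num)
    calc C * q ^ s * Real.exp (x ^ 3 / 12) = C * 1 * q ^ s * (1 * Real.exp (x ^ 3 / 12)) := by ring
      _ ≤ C * Real.exp (1 / 12) * q ^ s * (x ^ (3 * (k : ℝ) / 2 - 1) * Real.exp (x ^ 3 / 12)) := by
          gcongr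
  · have h2 := h' s (by omega) 1 one_pos
    have e1 : ww s x = ww s 1 * x ^ (3 * (s : ℝ) / 2 - 1) := by
      unfold ww
      rw [Real.one_rpow]
      ring
    have h3 : x ^ (3 * (s : ℝ) / 2 - 1) ≤ x ^ (3 * (k : ℝ) / 2 - 1) :=
      Real.rpow_le_rpow_of_exponent_ge hx h1.le (by linarith)
    have h4 : 1 ≤ Real.exp (x ^ 3 / 12) := Real.one_le_exp (by positivity)
    have h5 : 0 ≤ x ^ (3 * (s : ℝ) / 2 - 1) := by positivity
    have h6 : 0 ≤ x ^ (3 * (k : ℝ) / 2 - 1) := by positivity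
    rw [e1]
    calc ee s * (ww s 1 * x ^ (3 * (s : ℝ) / 2 - 1)) = (ee s * ww s 1) * x ^ (3 * (s : ℝ) / 2 - 1) := by
          ring
      _ ≤ (C * q ^ s * Real.exp (1 ^ 3 / 12)) * x ^ (3 * (k : ℝ) / 2 - 1) := by gcongr
      _ = C * Real.exp (1 / 12) * q ^ s * (x ^ (3 * (k : ℝ) / 2 - 1) * 1) := by
          rw [one_pow]; ring
      _ ≤ _ := by gcongr

/-- The tail of the series for negative `l`. -/
theorem tail {k : ℕ} (hk : 1 ≤ k) : ∃ C : ℝ, 0 < C ∧ ∀ l : ℝ, l < 0 →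
    ∑' s : ℕ, ee (s + k) * JJ l (s + k) ≤ C / (-l) ^ (3 * k) := by
  obtain ⟨C, q, hC, hq0, hq1, h⟩ := tail_pt hk
  set b : ℝ := 3 * (k : ℝ) / 2 with hb
  have hk0 : (1 : ℝ) ≤ k := by exact_mod_cast hk
  have hb0 : 0 < b := by positivity
  have hG := Real.Gamma_pos_of_pos hb0
  refine ⟨C * (2 ^ b * Real.Gamma b) * (1 - q)⁻¹, by
    have : 0 < 1 - q := by linarith
    positivity, fun l hl => ?_⟩
  have hl' : 0 < -l := by linarith
  have hI := int_gam hb0 hl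
  have hI' := int_gam' hb0 hl
  have e1 : (2 / l ^ 2) ^ b = 2 ^ b / (-l) ^ (3 * k) := by
    rw [Real.div_rpow (by norm_num) (by positivity)]
    congr 1
    rw [show l ^ 2 = (-l) ^ (2 : ℕ) by ring, ← Real.rpow_natCast, ← Real.rpow_mul hl'.le,
      ← Real.rpow_natCast]
    congr 1
    rw [hb]; push_cast; ring
  have hterm : ∀ s : ℕ, ee (s + k) * JJ l (s + k) ≤
      C * (2 ^ b * Real.Gamma b) / (-l) ^ (3 * k) * q ^ s := by
    intro s
    rw [AC.JJ_eq l (by omega), ← integral_const_mul]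
    have h1 : ∫ x in Set.Ioi (0 : ℝ), ee (s + k) * (ww (s + k) x * Real.exp (-(FF x l))) ≤
        ∫ x in Set.Ioi (0 : ℝ), C * q ^ (s + k) * (x ^ (b - 1) * Real.exp (-(l ^ 2 * x / 2))) := by
      refine setIntegral_mono_on ((AC.integ l (by omega)).const_mul _) (hI'.const_mul _)
        measurableSet_Ioi fun x hx => ?_
      have hx' : (0 : ℝ) < x := hx
      have h2 := h (s + k) (by omega) x hx'
      have h3 := AC.FF_neg hx'.le hl.le
      have h4 : Real.exp (x ^ 3 / 12) * Real.exp (-(FF x l)) ≤ Real.exp (-(l ^ 2 * x / 2)) := by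
        rw [← Real.exp_add]
        refine Real.exp_le_exp.2 ?_
        have : 0 < x ^ 3 := by positivity
        linarith
      calc ee (s + k) * (ww (s + k) x * Real.exp (-(FF x l)))
          = (ee (s + k) * ww (s + k) x) * Real.exp (-(FF x l)) := by ring
        _ ≤ (C * q ^ (s + k) * (x ^ (b - 1) * Real.exp (x ^ 3 / 12))) * Real.exp (-(FF x l)) := by
            gcongr
        _ = C * q ^ (s + k) * (x ^ (b - 1) * (Real.exp (x ^ 3 / 12) * Real.exp (-(FF x l)))) := by ring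
        _ ≤ _ := by gcongr
    refine h1.trans ?_
    rw [integral_const_mul, hI, e1]
    have h5 : q ^ (s + k) ≤ q ^ s := pow_le_pow_of_le_one hq0.le hq1.le (by omega)
    calc C * q ^ (s + k) * (2 ^ b / (-l) ^ (3 * k) * Real.Gamma b)
        ≤ C * q ^ s * (2 ^ b / (-l) ^ (3 * k) * Real.Gamma b) := by gcongr
      _ = _ := by ring
  have hs1 : Summable (fun s : ℕ => ee (s + k) * JJ l (s + k)) := (summable_nat_add_iff k).2 (bAF l)
  have hs2 : Summable (fun s : ℕ => C * (2 ^ b * Real.Gamma b) / (-l) ^ (3 * k) * q ^ s) :=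
    (summable_geometric_of_lt_one hq0.le hq1).mul_left _
  refine (hs1.tsum_le_tsum hterm hs2).trans (le_of_eq ?_)
  rw [tsum_mul_left, tsum_geometric_of_lt_one hq0.le hq1]
  ring

end Pool.Agent.Helper96.AX
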