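import Mathlib
import Pool.Agent.Helper26.AF.All

/-! Project AX: involutions with the largest number of faces (non-crossing), and their number. -/

namespace Pool.Agent.Helper96.AX.NCr

open Finset Pool.Agent.Helper26.AF

variable {D : Type} [Fintype D] [DecidableEq D]

set_option linter.unusedSectionVars false

/-- Involutions. -/
def Inv (τ : Equiv.Perm D) : Prop := ∀ x, τ (τ x) = x

/-- The moved points. -/
def sp (τ : Equiv.Perm D) : Finset D := univ.filter (fun x => τ x ≠ x)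

lemma mem_sp {τ : Equiv.Perm D} {x : D} : x ∈ sp τ ↔ τ x ≠ x := by
  unfold sp; simp

/-- The pair `x, τ x` removed. -/
lemma rem_apply {τ : Equiv.Perm D} (h : Inv τ) (x y : D) :
    (τ * Equiv.swap x (τ x)) y = if y = x ∨ y = τ x then y else τ y := by
  rw [Equiv.Perm.mul_apply]
  by_cases h1 : y = x
  · subst h1
    rw [Equiv.swap_apply_left, h y, if_pos (Or.inl rfl)]
  · by_cases h2 : y = τ x
    · subst h2
      rw [Equiv.swap_apply_right, if_pos (Or.inr rfl)]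
    · rw [Equiv.swap_apply_of_ne_of_ne h1 h2, if_neg (by tauto)]

lemma rem_inv {τ : Equiv.Perm D} (h : Inv τ) (x : D) : Inv (τ * Equiv.swap x (τ x)) := by
  intro y
  by_cases h1 : y = x ∨ y = τ x
  · rw [rem_apply h, rem_apply h, if_pos h1, if_pos h1]
  · rw [rem_apply h, rem_apply h, if_neg h1, if_neg ?_, h y]
    rintro (h2 | h2)
    · apply h1
      right
      rw [← h2, h y]
    · apply h1
      left
      exact τ.injective h2

lemma rem_sp {τ : Equiv.Perm D} (h : Inv τ) (x : D) :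
    sp (τ * Equiv.swap x (τ x)) = ((sp τ).erase x).erase (τ x) := by
  ext y
  rw [mem_sp, rem_apply h, Finset.mem_erase, Finset.mem_erase, mem_sp]
  by_cases h1 : y = x ∨ y = τ x
  · rw [if_pos h1]
    tauto
  · rw [if_neg h1]
    tauto

lemma rem_card {τ : Equiv.Perm D} (h : Inv τ) {x : D} (hx : τ x ≠ x) :
    #(sp (τ * Equiv.swap x (τ x))) + 2 = #(sp τ) := by
  have hx1 : x ∈ sp τ := mem_sp.2 hx
  have hx2 : τ x ∈ (sp τ).erase x := by
    rw [Finset.mem_erase, mem_sp, h x]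
    exact ⟨hx, hx.symm⟩
  rw [rem_sp h, Finset.card_erase_of_mem hx2, Finset.card_erase_of_mem hx1]
  have h1 : 0 < #(sp τ) := Finset.card_pos.2 ⟨x, hx1⟩
  have h2 : 0 < #((sp τ).erase x) := Finset.card_pos.2 ⟨_, hx2⟩
  rw [Finset.card_erase_of_mem hx1] at h2
  omega

lemma rem_mul {τ : Equiv.Perm D} (x : D) : τ = (τ * Equiv.swap x (τ x)) * Equiv.swap x (τ x) := by
  rw [mul_assoc, Equiv.swap_mul_self, mul_one]

lemma rem_mul' {τ : Equiv.Perm D} (h : Inv τ) (x : D) :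
    τ = Equiv.swap x (τ x) * (τ * Equiv.swap x (τ x)) := by
  ext y
  rw [Equiv.Perm.mul_apply, rem_apply h]
  by_cases h1 : y = x
  · subst h1
    rw [if_pos (Or.inl rfl), Equiv.swap_apply_left]
  · by_cases h2 : y = τ x
    · subst h2
      rw [if_pos (Or.inr rfl), Equiv.swap_apply_right, h x]
    · rw [if_neg (by tauto), Equiv.swap_apply_of_ne_of_ne]
      · intro h3
        apply h2
        rw [← h3, h y]
      · exact fun h3 => h1 (τ.injective h3)

lemma swap_le (ψ : Equiv.Perm D) {a b : D} (hab : a ≠ b) :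
    orb (ψ * Equiv.swap a b) ≤ orb ψ + 1 ∧ orb ψ ≤ orb (ψ * Equiv.swap a b) + 1 := by
  have h := okSWAP D ψ a b hab
  by_cases hs : ψ.SameCycle a b
  · have := h.1 hs; omega
  · have := h.2 hs; omega

lemma orb_change (n : ℕ) : ∀ (ψ τ : Equiv.Perm D), Inv τ → #(sp τ) ≤ n →
    2 * orb (ψ * τ) ≤ 2 * orb ψ + #(sp τ) ∧ 2 * orb ψ ≤ 2 * orb (ψ * τ) + #(sp τ) := by
  induction n using Nat.strong_induction_on with
  | _ n ih =>
    intro ψ τ h hn
    by_cases h0 : ∃ x, τ x ≠ x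
    · obtain ⟨x, hx⟩ := h0
      have h1 := rem_card h hx
      have h2 := ih (n - 2) (by omega) ψ _ (rem_inv h x) (by omega)
      have h3 := swap_le (ψ * (τ * Equiv.swap x (τ x))) hx.symm
      rw [mul_assoc, ← rem_mul (τ := τ) x] at h3
      omega
    · push Not at h0
      have : τ = 1 := Equiv.ext h0
      subst this
      rw [mul_one]
      omega

/-- Every pair of `τ` gives one more face. -/
def NC (ψ τ : Equiv.Perm D) : Prop := Inv τ ∧ 2 * orb (ψ * τ) = 2 * orb ψ + #(sp τ)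

lemma nc_rem {ψ τ : Equiv.Perm D} (h : NC ψ τ) {x : D} (hx : τ x ≠ x) :
    ψ.SameCycle x (τ x) ∧ NC (ψ * Equiv.swap x (τ x)) (τ * Equiv.swap x (τ x)) := by
  have h1 := rem_card h.1 hx
  have h2 := orb_change _ (ψ * Equiv.swap x (τ x)) _ (rem_inv h.1 x) le_rfl
  have h3 : orb (ψ * Equiv.swap x (τ x) * (τ * Equiv.swap x (τ x))) = orb (ψ * τ) := by
    rw [mul_assoc, ← rem_mul' h.1 x]
  have h4 := okSWAP D ψ x (τ x) hx.symm
  have h5 := h.2
  rw [h3] at h2
  by_cases hs : ψ.SameCycle x (τ x)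
  · refine ⟨hs, rem_inv h.1 x, ?_⟩
    have := h4.1 hs
    rw [h3]
    omega
  · have := h4.2 hs
    omega

lemma nc_same {ψ τ : Equiv.Perm D} (h : NC ψ τ) (x : D) : ψ.SameCycle x (τ x) := by
  by_cases hx : τ x = x
  · rw [hx]
  · exact (nc_rem h hx).1

lemma nc_two {ψ τ : Equiv.Perm D} (h : NC ψ τ) {x y : D} (hx : τ x ≠ x) (h1 : y ≠ x) (h2 : y ≠ τ x) :
    (ψ * Equiv.swap x (τ x)).SameCycle y (τ y) := by
  have h3 := nc_same (nc_rem h hx).2 y
  rw [rem_apply h.1, if_neg (by tauto)] at h3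
  exact h3

/-! ### The position in the cycle -/

/-- The first point of the cycle. -/
noncomputable def rt (ψ : Equiv.Perm D) (x : D) : D :=
  (Quotient.mk (Equiv.Perm.SameCycle.setoid ψ) x).out

lemma rt_same (ψ : Equiv.Perm D) (x : D) : ψ.SameCycle (rt ψ x) x := by
  have : (Equiv.Perm.SameCycle.setoid ψ).r (rt ψ x) x :=
    Quotient.exact (Quotient.out_eq (Quotient.mk (Equiv.Perm.SameCycle.setoid ψ) x))
  exact this

lemma rt_eq {ψ : Equiv.Perm D} {x y : D} : rt ψ x = rt ψ y ↔ ψ.SameCycle x y := by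
  constructor
  · intro h
    have h1 := rt_same ψ x
    rw [h] at h1
    exact h1.symm.trans (rt_same ψ y)
  · intro h
    unfold rt
    congr 1
    exact Quotient.sound h

lemma ix_ex (ψ : Equiv.Perm D) (x : D) : ∃ n : ℕ, (ψ ^ n) (rt ψ x) = x :=
  (rt_same ψ x).exists_nat_pow_eq

/-- The position of the point in its cycle. -/
noncomputable def ix (ψ : Equiv.Perm D) (x : D) : ℕ := Nat.find (ix_ex ψ x)

lemma ix_spec (ψ : Equiv.Perm D) (x : D) : (ψ ^ ix ψ x) (rt ψ x) = x := Nat.find_spec (ix_ex ψ x)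

lemma ix_le {ψ : Equiv.Perm D} {x : D} {n : ℕ} (h : (ψ ^ n) (rt ψ x) = x) : ix ψ x ≤ n :=
  Nat.find_min' (ix_ex ψ x) h

lemma ix_inj {ψ : Equiv.Perm D} {x y : D} (h : rt ψ x = rt ψ y) (h' : ix ψ x = ix ψ y) : x = y := by
  rw [← ix_spec ψ x, ← ix_spec ψ y, h, h']

lemma rt_succ (ψ : Equiv.Perm D) (x : D) : rt ψ (ψ x) = rt ψ x :=
  rt_eq.2 (Equiv.Perm.sameCycle_apply_left.2 (Equiv.Perm.SameCycle.refl ψ x))

lemma ix_succ {ψ : Equiv.Perm D} {z x : D} (h : rt ψ x = rt ψ z) (h' : ix ψ z < ix ψ x) :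
    ix ψ (ψ z) = ix ψ z + 1 := by
  have h1 : (ψ ^ (ix ψ z + 1)) (rt ψ (ψ z)) = ψ z := by
    rw [rt_succ, pow_succ', Equiv.Perm.mul_apply, ix_spec]
  have h2 : ix ψ (ψ z) ≤ ix ψ z + 1 := ix_le h1
  by_contra h3
  have h4 : ix ψ (ψ z) ≤ ix ψ z := by omega
  have h5 := ix_spec ψ (ψ z)
  rw [rt_succ] at h5 h1
  set j := ix ψ (ψ z) with hj
  set i := ix ψ z with hi
  have h6 : (ψ ^ (i + 1 - j)) (rt ψ z) = rt ψ z := by
    have : (ψ ^ j) ((ψ ^ (i + 1 - j)) (rt ψ z)) = (ψ ^ j) (rt ψ z) := by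
      rw [← Equiv.Perm.mul_apply, ← pow_add, show j + (i + 1 - j) = i + 1 by omega, h1, h5]
    exact (ψ ^ j).injective this
  have h7 : (ψ ^ (ix ψ x - (i + 1 - j))) (rt ψ x) = x := by
    conv_rhs => rw [← ix_spec ψ x]
    rw [show ix ψ x = (ix ψ x - (i + 1 - j)) + (i + 1 - j) by omega, pow_add, Equiv.Perm.mul_apply, h, h6]
    congr 2
    omega
  have h8 := ix_le h7
  omega

lemma no_cross {ψ τ : Equiv.Perm D} (h : NC ψ τ) {x y : D} (hxy : rt ψ y = rt ψ x)
    (h1 : ix ψ x < ix ψ y) (h2 : ix ψ y < ix ψ (τ x)) :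
    ix ψ x < ix ψ (τ y) ∧ ix ψ (τ y) < ix ψ (τ x) := by
  have hx : τ x ≠ x := fun h' => by rw [h'] at h2; omega
  have hyx : y ≠ x := fun h' => by rw [h'] at h1; omega
  have hyx' : y ≠ τ x := fun h' => by rw [h'] at h2; omega
  have hrx : rt ψ (τ x) = rt ψ x := (rt_eq.2 (nc_same h x)).symm
  have hc := nc_two h hx hyx hyx'
  obtain ⟨n, hn⟩ := hc.exists_nat_pow_eq
  have key : ∀ n : ℕ, ∀ z : D, (rt ψ z = rt ψ x ∧ ix ψ x < ix ψ z ∧ ix ψ z ≤ ix ψ (τ x)) →
      rt ψ (((ψ * Equiv.swap x (τ x)) ^ n) z) = rt ψ x ∧ ix ψ x < ix ψ (((ψ * Equiv.swap x (τ x)) ^ n) z) ∧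
      ix ψ (((ψ * Equiv.swap x (τ x)) ^ n) z) ≤ ix ψ (τ x) := by
    intro n
    induction n with
    | zero => intro z hz; simpa using hz
    | succ n ih =>
      intro z hz
      rw [pow_succ, Equiv.Perm.mul_apply]
      apply ih
      rw [Equiv.Perm.mul_apply]
      have hzx : z ≠ x := fun h' => by rw [h'] at hz; omega
      by_cases hz2 : z = τ x
      · rw [hz2, Equiv.swap_apply_right, rt_succ, ix_succ hrx (by omega)]
        exact ⟨rfl, by omega, by omega⟩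
      · rw [Equiv.swap_apply_of_ne_of_ne hzx hz2, rt_succ]
        have h3 : ix ψ z ≠ ix ψ (τ x) := fun h' => hz2 (ix_inj (by rw [hz.1, hrx]) h')
        rw [ix_succ (x := τ x) (by rw [hz.1, hrx]) (by omega)]
        exact ⟨hz.1, by omega, by omega⟩
  have h3 := key n y ⟨hxy, h1, h2.le⟩
  rw [hn] at h3
  refine ⟨h3.2.1, lt_of_le_of_ne h3.2.2 fun h' => ?_⟩
  have h4 : τ y = τ x := ix_inj (by rw [h3.1, hrx]) h'
  exact hyx (τ.injective h4)

/-- The code: opening, closing, fixed. -/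
noncomputable def cd (ψ τ : Equiv.Perm D) (x : D) : Fin 3 :=
  if ix ψ x < ix ψ (τ x) then 1 else if ix ψ (τ x) < ix ψ x then 2 else 0

lemma cd_one {ψ τ : Equiv.Perm D} {x : D} : cd ψ τ x = 1 ↔ ix ψ x < ix ψ (τ x) := by
  unfold cd
  split_ifs with h1 h2 <;> simp [h1]

lemma cd_two {ψ τ : Equiv.Perm D} {x : D} : cd ψ τ x = 2 ↔ ix ψ (τ x) < ix ψ x := by
  unfold cd
  split_ifs with h1 h2
  · constructor
    · intro h; exact absurd h (by decide)
    · intro h; omega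
  · simp [h2]
  · constructor
    · intro h; exact absurd h (by decide)
    · intro h; exact absurd h h2

lemma cd_zero {ψ τ : Equiv.Perm D} (h : NC ψ τ) {x : D} (h0 : cd ψ τ x = 0) : τ x = x := by
  unfold cd at h0
  split_ifs at h0 with h1 h2
  · exact absurd h0 (by decide)
  · exact absurd h0 (by decide)
  · exact (ix_inj (rt_eq.2 (nc_same h x)) (by omega)).symm

lemma step {ψ τ τ' : Equiv.Perm D} (h : NC ψ τ) (h' : NC ψ τ') (hc : ∀ x, cd ψ τ x = cd ψ τ' x) {y : D}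
    (ih : ∀ u, ix ψ u < ix ψ y → cd ψ τ u = 2 → τ u = τ' u) (hy : cd ψ τ y = 2) :
    ¬ ix ψ (τ' y) < ix ψ (τ y) := by
  intro hlt
  have hy1 := cd_two.1 hy
  have hr : rt ψ (τ y) = rt ψ y := (rt_eq.2 (nc_same h y)).symm
  have hr' : rt ψ (τ' y) = rt ψ y := (rt_eq.2 (nc_same h' y)).symm
  have h1 := no_cross h' (x := τ' y) (y := τ y) (by rw [hr, hr']) hlt (by rw [h'.1 y]; exact hy1)
  rw [h'.1 y] at h1
  have h2 : cd ψ τ (τ y) = 1 := cd_one.2 (by rw [h.1 y]; exact hy1)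
  rw [hc] at h2
  have h3 := cd_one.1 h2
  have h4 : cd ψ τ' (τ' (τ y)) = 2 := cd_two.2 (by rw [h'.1 (τ y)]; exact h3)
  rw [← hc] at h4
  have h5 := ih _ h1.2 h4
  rw [h'.1 (τ y)] at h5
  have h6 : τ' (τ y) = y := τ.injective h5
  rw [h6] at h1
  omega

lemma closing {ψ τ τ' : Equiv.Perm D} (h : NC ψ τ) (h' : NC ψ τ') (hc : ∀ x, cd ψ τ x = cd ψ τ' x) (n : ℕ) :
    ∀ y, ix ψ y = n → cd ψ τ y = 2 → τ y = τ' y := by
  induction n using Nat.strong_induction_on with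
  | _ n ih =>
    intro y hn hy
    have h1 := step h h' hc (y := y) (fun u hu hu2 => ih _ (by omega) u rfl hu2) hy
    have h2 := step h' h (fun x => (hc x).symm) (y := y) (fun u hu hu2 => by
      rw [← hc] at hu2
      exact (ih _ (by omega) u rfl hu2).symm) (by rw [← hc]; exact hy)
    have hr : rt ψ (τ y) = rt ψ y := (rt_eq.2 (nc_same h y)).symm
    have hr' : rt ψ (τ' y) = rt ψ y := (rt_eq.2 (nc_same h' y)).symm
    exact ix_inj (by rw [hr, hr']) (by omega)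

lemma cd_inj {ψ τ τ' : Equiv.Perm D} (h : NC ψ τ) (h' : NC ψ τ') (hc : ∀ x, cd ψ τ x = cd ψ τ' x) :
    τ = τ' := by
  ext x
  have h3 : cd ψ τ x = 0 ∨ cd ψ τ x = 1 ∨ cd ψ τ x = 2 := by
    generalize cd ψ τ x = c
    revert c
    decide
  rcases h3 with h0 | h0 | h0
  · rw [cd_zero h h0]
    rw [hc] at h0
    rw [cd_zero h' h0]
  · have h1 := cd_one.1 h0
    have h2 : cd ψ τ (τ x) = 2 := cd_two.2 (by rw [h.1 x]; exact h1)
    have h4 := closing h h' hc _ (τ x) rfl h2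
    rw [h.1 x] at h4
    have h5 : τ' x = τ x := by
      conv_lhs => rw [h4, h'.1]
    exact h5.symm
  · exact closing h h' hc _ x rfl h0

/-- The number of the non-crossing involutions. -/
theorem card_nc (ψ : Equiv.Perm D) : Nat.card {τ : Equiv.Perm D // NC ψ τ} ≤ 3 ^ Fintype.card D := by
  classical
  have hinj : Function.Injective (fun τ : {τ : Equiv.Perm D // NC ψ τ} => (fun x => cd ψ τ.1 x : D → Fin 3)) := by
    intro τ τ' h
    exact Subtype.ext (cd_inj τ.2 τ'.2 (fun x => congrFun h x))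
  have h := Nat.card_le_card_of_injective _ hinj
  rwa [Nat.card_eq_fintype_card (α := D → Fin 3), Fintype.card_fun, Fintype.card_fin] at h

end Pool.Agent.Helper96.AX.NCr
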