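import Mathlib
import Pool.Agent.Helper26.AL.All
import Pool.Agent.Helper96.AX.NCr

/-! Project AX: a pairing with many faces is a small involution followed by a non-crossing one. -/

namespace Pool.Agent.Helper96.AX.Max

open Finset Pool.Agent.Helper26.AF Pool.Agent.Helper26.AL Pool.Agent.Helper96.AX.NCr

variable {D : Type} [Fintype D] [DecidableEq D]

/-- `τ` consists of some of the pairs of `κ`. -/
def Sub (κ τ : Equiv.Perm D) : Prop := ∀ x, τ x = x ∨ τ x = κ x

set_option linter.unusedSectionVars false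

lemma sub_inv {κ τ : Equiv.Perm D} (hκ : IsPair κ) (h : Sub κ τ) : Inv τ := by
  intro x
  rcases h x with h1 | h1
  · rw [h1, h1]
  · rcases h (τ x) with h2 | h2
    · exfalso
      have := τ.injective h2
      rw [h1] at this
      exact (hκ x).2 this
    · rw [h2, h1, (hκ x).1]

lemma sub_one (κ : Equiv.Perm D) : Sub κ 1 := fun _ => Or.inl rfl

lemma sp_one : sp (1 : Equiv.Perm D) = ∅ := by
  ext x
  rw [mem_sp]
  simp

/-- Adding a pair. -/
lemma add_sub {κ τ : Equiv.Perm D} (hκ : IsPair κ) (h : Sub κ τ) {x : D} (hx : τ x = x) :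
    Sub κ (τ * Equiv.swap x (κ x)) ∧ #(sp (τ * Equiv.swap x (κ x))) = #(sp τ) + 2 := by
  have hi := sub_inv hκ h
  have hx' : τ (κ x) = κ x := by
    rcases h (κ x) with h1 | h1
    · exact h1
    · exfalso
      rw [(hκ x).1] at h1
      have h2 := hi (κ x)
      rw [h1, hx] at h2
      exact (hκ x).2 h2.symm
  have happ : ∀ y, (τ * Equiv.swap x (κ x)) y = if y = x ∨ y = κ x then κ y else τ y := by
    intro y
    rw [Equiv.Perm.mul_apply]
    by_cases h1 : y = x
    · subst h1
      rw [Equiv.swap_apply_left, if_pos (Or.inl rfl), hx']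
    · by_cases h2 : y = κ x
      · subst h2
        rw [Equiv.swap_apply_right, if_pos (Or.inr rfl), hx, (hκ x).1]
      · rw [Equiv.swap_apply_of_ne_of_ne h1 h2, if_neg (by tauto)]
  constructor
  · intro y
    rw [happ]
    by_cases h1 : y = x ∨ y = κ x
    · rw [if_pos h1]; exact Or.inr rfl
    · rw [if_neg h1]; exact h y
  · have hs : sp (τ * Equiv.swap x (κ x)) = insert x (insert (κ x) (sp τ)) := by
      ext y
      rw [mem_sp, happ, Finset.mem_insert, Finset.mem_insert, mem_sp]
      by_cases h1 : y = x ∨ y = κ x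
      · rw [if_pos h1]
        have := (hκ y).2
        tauto
      · rw [if_neg h1]
        tauto
    rw [hs, Finset.card_insert_of_notMem, Finset.card_insert_of_notMem]
    · rw [mem_sp]; exact fun h' => h' hx'
    · rw [Finset.mem_insert, mem_sp]
      rintro (h' | h')
      · exact (hκ x).2 h'.symm
      · exact h' hx

/-- The complementary pairs. -/
lemma compl_sub {κ τ : Equiv.Perm D} (hκ : IsPair κ) (h : Sub κ τ) :
    Sub κ (κ * τ) ∧ #(sp (κ * τ)) + #(sp τ) = Fintype.card D ∧ (κ * τ) * τ = κ := by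
  have hi := sub_inv hκ h
  refine ⟨fun x => ?_, ?_, ?_⟩
  · rw [Equiv.Perm.mul_apply]
    rcases h x with h1 | h1
    · rw [h1]; exact Or.inr rfl
    · rw [h1, (hκ x).1]; exact Or.inl rfl
  · have hd : sp (κ * τ) = (sp τ)ᶜ := by
      ext x
      rw [mem_sp, Finset.mem_compl, mem_sp, Equiv.Perm.mul_apply]
      rcases h x with h1 | h1
      · rw [h1]
        have := (hκ x).2
        tauto
      · rw [h1, (hκ x).1]
        have := (hκ x).2
        tauto
    rw [hd, Finset.card_compl]
    have := Finset.card_le_univ (sp τ)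
    omega
  · rw [mul_assoc]
    have : τ * τ = 1 := by
      ext x
      rw [Equiv.Perm.mul_apply, hi x]
      rfl
    rw [this, mul_one]

/-- A maximal set of pairs each of which joins two faces. -/
lemma exists_max (φ κ : Equiv.Perm D) (hκ : IsPair κ) : ∃ τ : Equiv.Perm D, Sub κ τ ∧
    2 * orb (φ * τ) + #(sp τ) = 2 * orb φ ∧ ∀ x, (φ * τ).SameCycle x (κ x) := by
  classical
  obtain ⟨τ, hτ, hmax⟩ := Finset.exists_max_image
    ((univ : Finset (Equiv.Perm D)).filter (fun τ => Sub κ τ ∧ 2 * orb (φ * τ) + #(sp τ) = 2 * orb φ))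
    (fun τ => #(sp τ)) ⟨1, by
      rw [Finset.mem_filter]
      refine ⟨Finset.mem_univ _, sub_one κ, ?_⟩
      rw [sp_one, mul_one]
      simp⟩
  rw [Finset.mem_filter] at hτ
  obtain ⟨-, hsub, heq⟩ := hτ
  have hi := sub_inv hκ hsub
  refine ⟨τ, hsub, heq, fun x => ?_⟩
  by_contra hns
  have hsw := okSWAP D (φ * τ) x (κ x) (hκ x).2.symm
  have h1 := hsw.2 hns
  rcases hsub x with hx | hx
  · obtain ⟨h2, h3⟩ := add_sub hκ hsub hx
    have h4 := hmax (τ * Equiv.swap x (κ x)) (by
      rw [Finset.mem_filter]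
      refine ⟨Finset.mem_univ _, h2, ?_⟩
      rw [← mul_assoc, h3]
      omega)
    rw [h3] at h4
    omega
  · have hx' : τ x ≠ x := by rw [hx]; exact (hκ x).2
    have h2 := rem_card hi hx'
    have h3 := orb_change _ φ _ (rem_inv hi x) le_rfl
    rw [← mul_assoc, hx] at h3
    rw [hx] at h2
    omega

/-- The main decomposition for kernels. -/
theorem decomp {g s : ℕ} {κ : Equiv.Perm (KX s)} (hκ : IsPair κ) {σ : Equiv.Perm (KX s)} (hσ : RotX σ)
    (h : 2 * cmq κ Prod.fst + s ≤ orb (σ * κ) + 2 * g) :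
    ∃ τ₁ τ₂ : Equiv.Perm (KX s), Inv τ₁ ∧ #(sp τ₁) ≤ 4 * s + 4 * g ∧ NC (σ * τ₁) τ₂ ∧ κ = τ₁ * τ₂ := by
  classical
  obtain ⟨τ, hsub, heq, hsame⟩ := exists_max (σ * κ) κ hκ
  obtain ⟨hc1, hc2, hc3⟩ := compl_sub hκ hsub
  have hi := sub_inv hκ hsub
  have hcard : Fintype.card (KX s) = 6 * s := by simp [KX]; ring
  have e1 : σ * κ * τ = σ * (κ * τ) := mul_assoc _ _ _
  have hle : orb (σ * κ * τ) ≤ cmq κ Prod.fst := by
    unfold orb cmq
    have : Finite (Quot (fun a b : KX s => b = κ a ∨ Prod.fst b = Prod.fst a)) := Quot.finite _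
    have hσs : ∀ x, (σ * κ * τ).SameCycle x (σ x) := by
      intro x
      have h1 := hsame x
      have h3 : (σ * κ * τ) (τ⁻¹ (κ x)) = σ x := by
        rw [Equiv.Perm.mul_apply, Equiv.Perm.mul_apply]
        simp [(hκ x).1]
      have h4 : (σ * κ * τ).SameCycle (τ⁻¹ (κ x)) (σ x) := by
        rw [← h3]
        exact Equiv.Perm.sameCycle_apply_right.2 (Equiv.Perm.SameCycle.refl _ _)
      have h5 : (σ * κ * τ).SameCycle x (τ⁻¹ (κ x)) := by
        have hinv : τ⁻¹ (κ x) = τ (κ x) := by
          rw [Equiv.Perm.inv_eq_iff_eq, hi]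
        rw [hinv]
        rcases hsub (κ x) with h6 | h6
        · rw [h6]; exact h1
        · rw [h6, (hκ x).1]
      exact h5.trans h4
    have hpow : ∀ (n : ℕ) (x : KX s), (σ * κ * τ).SameCycle x ((σ ^ n) x) := by
      intro n
      induction n with
      | zero => intro x; exact Equiv.Perm.SameCycle.refl _ _
      | succ n ih =>
        intro x
        rw [pow_succ', Equiv.Perm.mul_apply]
        exact (ih x).trans (hσs _)
    refine Nat.card_le_card_of_surjective (Quot.lift (fun x =>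
      Quotient.mk (Equiv.Perm.SameCycle.setoid (σ * κ * τ)) x) ?_) ?_
    · rintro a b (hab | hab)
      · apply Quotient.sound
        rw [hab]
        exact hsame a
      · apply Quotient.sound
        obtain ⟨n, hn⟩ := (hσ.2 a b hab.symm).exists_nat_pow_eq
        have := hpow n a
        rw [hn] at this
        exact this
    · intro q
      obtain ⟨x, rfl⟩ := Quotient.exists_rep q
      exact ⟨Quot.mk _ x, rfl⟩
  refine ⟨κ * τ, τ, sub_inv hκ hc1, ?_, ⟨hi, ?_⟩, hc3.symm⟩
  · omega
  · rw [← e1]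
    have e2 : σ * κ * τ * τ = σ * κ := by
      rw [e1, mul_assoc, hc3]
    rw [e2]
    omega

end Pool.Agent.Helper96.AX.Max
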