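import Mathlib
import Pool.Agent.Helper96.AX.Max
import Pool.Agent.Helper97.AW.GG

/-! Project AX: the number of kernels of bounded genus. -/

namespace Pool.Agent.Helper96.AX.Cnt

open Finset Pool.Agent.Helper26.AF Pool.Agent.Helper26.AL Pool.Agent.Helper96.AX.NCr
  Pool.Agent.Helper96.AX.Max

set_option linter.unusedSectionVars false

variable {D : Type} [Fintype D] [DecidableEq D]

lemma cover [Nonempty D] (A : Finset D) {K : ℕ} (hA : #A ≤ K) : ∃ f : Fin K → D, ∀ a ∈ A, ∃ j, f j = a := by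
  classical
  refine ⟨fun j => A.toList.getD j (Classical.arbitrary D), fun a ha => ?_⟩
  obtain ⟨i, hi, he⟩ := List.getElem_of_mem (Finset.mem_toList.2 ha)
  rw [Finset.length_toList] at hi
  refine ⟨⟨i, by omega⟩, ?_⟩
  show A.toList.getD i _ = a
  rw [List.getD_eq_getElem _ _ (by rw [Finset.length_toList]; exact hi)]
  exact he

/-- The number of involutions with few moved points. -/
theorem card_inv [Nonempty D] (K : ℕ) :
    Nat.card {τ : Equiv.Perm D // Inv τ ∧ #(sp τ) ≤ 2 * K} ≤ 2 ^ Fintype.card D * Fintype.card D ^ K := by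
  classical
  set e := Fintype.equivFin D with he
  let A : Equiv.Perm D → Finset D := fun τ => univ.filter (fun x => e x < e (τ x))
  have hA : ∀ τ : Equiv.Perm D, ∀ x, x ∈ A τ ↔ e x < e (τ x) := fun τ x => by simp [A]
  have hcard : ∀ τ : Equiv.Perm D, Inv τ → 2 * #(A τ) ≤ #(sp τ) := by
    intro τ hτ
    have h1 : #((A τ).image τ) = #(A τ) := Finset.card_image_of_injective _ τ.injective
    have h2 : Disjoint (A τ) ((A τ).image τ) := by
      rw [Finset.disjoint_left]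
      intro x hx hx'
      rw [Finset.mem_image] at hx'
      obtain ⟨y, hy, rfl⟩ := hx'
      rw [hA, hτ] at hx
      rw [hA] at hy
      exact absurd hx (not_lt.2 hy.le)
    have h3 : A τ ∪ (A τ).image τ ⊆ sp τ := by
      intro x hx
      rw [Finset.mem_union, Finset.mem_image] at hx
      rw [mem_sp]
      rcases hx with hx | ⟨y, hy, rfl⟩
      · rw [hA] at hx
        intro h
        rw [h] at hx
        exact lt_irrefl _ hx
      · rw [hA] at hy
        rw [hτ]
        intro h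
        rw [← h] at hy
        exact lt_irrefl _ hy
    have h4 := Finset.card_le_card h3
    rw [Finset.card_union_of_disjoint h2, h1] at h4
    omega
  have hf : ∀ B : Finset D, ∃ f : Fin K → D, #B ≤ K → ∀ a ∈ B, ∃ j, f j = a := by
    intro B
    by_cases h : #B ≤ K
    · obtain ⟨f, hf⟩ := cover B h
      exact ⟨f, fun _ => hf⟩
    · exact ⟨fun _ => Classical.arbitrary D, fun h' => absurd h' h⟩
  choose f hf using hf
  have hinj : Function.Injective (fun τ : {τ : Equiv.Perm D // Inv τ ∧ #(sp τ) ≤ 2 * K} =>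
      ((A τ.1, fun j => τ.1 (f (A τ.1) j)) : Finset D × (Fin K → D))) := by
    rintro ⟨τ, h1, h2⟩ ⟨τ', h1', h2'⟩ h
    simp only [Prod.mk.injEq] at h
    obtain ⟨h3, h4⟩ := h
    apply Subtype.ext
    show τ = τ'
    have hK : #(A τ) ≤ K := by have := hcard τ h1; omega
    have h5 : ∀ x ∈ A τ, τ x = τ' x := by
      intro x hx
      obtain ⟨j, hj⟩ := hf (A τ) hK x hx
      have := congrFun h4 j
      rw [← h3, hj] at this
      exact this
    have key : ∀ x, e (τ x) < e x → τ' x = τ x := by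
      intro x hx
      have h6 := h5 (τ x) (by rw [hA, h1]; exact hx)
      rw [h1] at h6
      conv_lhs => rw [h6]
      rw [h1']
    have key' : ∀ x, e (τ' x) < e x → τ x = τ' x := by
      intro x hx
      have h6 := h5 (τ' x) (by rw [h3, hA, h1']; exact hx)
      rw [h1'] at h6
      conv_lhs => rw [← h6]
      rw [h1]
    ext x
    rcases lt_trichotomy (e x) (e (τ x)) with h | h | h
    · exact h5 x (by rw [hA]; exact h)
    · have h7 : τ x = x := (e.injective h).symm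
      rcases lt_trichotomy (e x) (e (τ' x)) with h' | h' | h'
      · have h8 : x ∈ A τ := by rw [h3, hA]; exact h'
        exact h5 x h8
      · rw [h7]
        exact e.injective h'
      · exact key' x h'
    · exact (key x h).symm
  have h := Nat.card_le_card_of_injective _ hinj
  rw [Nat.card_prod, Nat.card_eq_fintype_card (α := Finset D), Fintype.card_finset,
    Nat.card_eq_fintype_card (α := Fin K → D), Fintype.card_fun, Fintype.card_fin] at h
  exact h

/-- The number of kernels of genus at most `g`. -/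
theorem card_emb {g s : ℕ} (hs : 1 ≤ s) :
    Nat.card {κ : Equiv.Perm (KX s) // IsPair κ ∧ EmbX g κ} ≤
      729 ^ s * (64 ^ s * (6 * s) ^ (2 * s + 2 * g) * 729 ^ s) := by
  classical
  have hcard : Fintype.card (KX s) = 6 * s := by simp [KX]; ring
  have hne : Nonempty (KX s) := ⟨(⟨0, by omega⟩, 0)⟩
  let T : Type := Σ σ : {σ : Equiv.Perm (KX s) // RotX σ},
    Σ τ₁ : {τ : Equiv.Perm (KX s) // Inv τ ∧ #(sp τ) ≤ 2 * (2 * s + 2 * g)},
      {τ₂ : Equiv.Perm (KX s) // NC (σ.1 * τ₁.1) τ₂}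
  have hinj : ∃ F : {κ : Equiv.Perm (KX s) // IsPair κ ∧ EmbX g κ} → T,
      ∀ κ, κ.1 = (F κ).2.1.1 * (F κ).2.2.1 := by
    have : ∀ κ : {κ : Equiv.Perm (KX s) // IsPair κ ∧ EmbX g κ}, ∃ x : T, κ.1 = x.2.1.1 * x.2.2.1 := by
      rintro ⟨κ, hκ, σ, hσ, h⟩
      obtain ⟨τ₁, τ₂, h1, h2, h3, h4⟩ := decomp hκ hσ h
      exact ⟨⟨⟨σ, hσ⟩, ⟨τ₁, h1, by omega⟩, ⟨τ₂, h3⟩⟩, h4⟩
    choose F hF using this
    exact ⟨F, hF⟩
  obtain ⟨F, hF⟩ := hinj
  have h1 := Nat.card_le_card_of_injective F (fun κ κ' h => Subtype.ext (by rw [hF κ, hF κ', h]))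
  refine h1.trans ?_
  show Nat.card T ≤ _
  rw [Nat.card_sigma]
  have h2 : ∀ σ : {σ : Equiv.Perm (KX s) // RotX σ},
      Nat.card (Σ τ₁ : {τ : Equiv.Perm (KX s) // Inv τ ∧ #(sp τ) ≤ 2 * (2 * s + 2 * g)},
      {τ₂ : Equiv.Perm (KX s) // NC (σ.1 * τ₁.1) τ₂}) ≤ 64 ^ s * (6 * s) ^ (2 * s + 2 * g) * 729 ^ s := by
    intro σ
    rw [Nat.card_sigma]
    have h3 : ∀ τ₁ : {τ : Equiv.Perm (KX s) // Inv τ ∧ #(sp τ) ≤ 2 * (2 * s + 2 * g)},
        Nat.card {τ₂ : Equiv.Perm (KX s) // NC (σ.1 * τ₁.1) τ₂} ≤ 729 ^ s := by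
      intro τ₁
      have := card_nc (σ.1 * τ₁.1)
      rwa [hcard, pow_mul, show (3 : ℕ) ^ 6 = 729 by norm_num] at this
    have h4 := card_inv (D := KX s) (2 * s + 2 * g)
    rw [hcard, pow_mul, show (2 : ℕ) ^ 6 = 64 by norm_num, Nat.card_eq_fintype_card] at h4
    calc _ ≤ ∑ _τ₁ : {τ : Equiv.Perm (KX s) // Inv τ ∧ #(sp τ) ≤ 2 * (2 * s + 2 * g)}, 729 ^ s :=
          Finset.sum_le_sum fun τ₁ _ => h3 τ₁
      _ = Fintype.card {τ : Equiv.Perm (KX s) // Inv τ ∧ #(sp τ) ≤ 2 * (2 * s + 2 * g)} * 729 ^ s := by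
          rw [Finset.sum_const, Finset.card_univ, smul_eq_mul]
      _ ≤ _ := Nat.mul_le_mul_right _ h4
  have h5 := Pool.Agent.Helper97.AW.GG.card_rot s
  rw [Nat.card_eq_fintype_card] at h5
  calc _ ≤ ∑ _σ : {σ : Equiv.Perm (KX s) // RotX σ}, 64 ^ s * (6 * s) ^ (2 * s + 2 * g) * 729 ^ s :=
        Finset.sum_le_sum fun σ _ => h2 σ
    _ = Fintype.card {σ : Equiv.Perm (KX s) // RotX σ} * (64 ^ s * (6 * s) ^ (2 * s + 2 * g) * 729 ^ s) := by
        rw [Finset.sum_const, Finset.card_univ, smul_eq_mul]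
    _ ≤ _ := Nat.mul_le_mul_right _ h5

/-- The numbers `eg g s` grow at most exponentially. -/
theorem eg_le : ∃ A : ℝ, 1 ≤ A ∧ ∀ g s : ℕ, 1 ≤ s → eg g s ≤ (2 * g).factorial * A ^ s := by
  refine ⟨729 * 64 * 729 * 9 * Real.exp 8 / 36, ?_, fun g s hs => ?_⟩
  · have : 1 ≤ Real.exp 8 := Real.one_le_exp (by norm_num)
    linarith
  have h1 : (Nat.card {κ : Equiv.Perm (KX s) // IsPair κ ∧ EmbX g κ} : ℝ) ≤
      729 ^ s * (64 ^ s * (6 * s) ^ (2 * s + 2 * g) * 729 ^ s) := by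
    exact_mod_cast card_emb (g := g) hs
  have h2 : ((2 * s : ℕ) : ℝ) ^ (2 * s) ≤ ((2 * s).factorial : ℝ) * Real.exp (2 * s) := by
    have := Real.pow_div_factorial_le_exp ((2 * s : ℕ) : ℝ) (by positivity) (2 * s)
    rw [div_le_iff₀ (by positivity)] at this
    push_cast at this ⊢
    linarith
  have h3 : ((6 * s : ℕ) : ℝ) ^ (2 * g) ≤ ((2 * g).factorial : ℝ) * Real.exp (6 * s) := by
    have := Real.pow_div_factorial_le_exp ((6 * s : ℕ) : ℝ) (by positivity) (2 * g)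
    rw [div_le_iff₀ (by positivity)] at this
    push_cast at this ⊢
    linarith
  have h4 : (6 * (s : ℝ)) ^ (2 * s + 2 * g) ≤
      9 ^ s * ((2 * s).factorial * Real.exp (2 * s)) * ((2 * g).factorial * Real.exp (6 * s)) := by
    rw [pow_add]
    push_cast at h2 h3
    have e : (6 * (s : ℝ)) ^ (2 * s) = 9 ^ s * (2 * (s : ℝ)) ^ (2 * s) := by
      rw [show (6 * (s : ℝ)) = 3 * (2 * (s : ℝ)) by ring, mul_pow, pow_mul 3 2 s]
      norm_num
    rw [e]
    gcongr
  have e8 : Real.exp (2 * s) * Real.exp (6 * s) = Real.exp 8 ^ s := by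
    rw [← Real.exp_add, ← Real.exp_nat_mul]
    congr 1
    ring
  unfold eg
  rw [div_le_iff₀ (by positivity)]
  calc _ ≤ 729 ^ s * (64 ^ s * (6 * (s : ℝ)) ^ (2 * s + 2 * g) * 729 ^ s) := h1
    _ ≤ 729 ^ s * (64 ^ s * (9 ^ s * ((2 * s).factorial * Real.exp (2 * s)) *
        ((2 * g).factorial * Real.exp (6 * s))) * 729 ^ s) := by gcongr
    _ = ((2 * g).factorial : ℝ) * ((2 * s).factorial : ℝ) * (729 ^ s * 64 ^ s * 729 ^ s * 9 ^ s *
        (Real.exp (2 * s) * Real.exp (6 * s))) := by ring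
    _ = ((2 * g).factorial : ℝ) * ((2 * s).factorial : ℝ) * (729 * 64 * 729 * 9 * Real.exp 8) ^ s := by
        rw [e8, mul_pow, mul_pow, mul_pow, mul_pow]
    _ = _ := by
        rw [div_pow]
        have : (36 : ℝ) ^ s ≠ 0 := by positivity
        field_simp

end Pool.Agent.Helper96.AX.Cnt
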