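import Mathlib
import Pool.Agent.Helper96.AX.Base
import Pool.Agent.Helper83.AF.UG

/-! Project AX: copies of `K_(3,3)` do not embed on surfaces of small genus. -/

namespace Pool.Agent.Helper96.AX.K33

open Finset Pool.Agent.Helper26.AF Pool.Agent.Helper26.AL

/-- If no point has period at most three there are at most a quarter as many orbits as points. -/
lemma four_orb {D : Type} [Finite D] (π : Equiv.Perm D)
    (h : ∀ x : D, ∀ j : ℕ, 1 ≤ j → j ≤ 3 → (π ^ j) x ≠ x) : 4 * orb π ≤ Nat.card D := by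
  unfold orb
  have hinj : Function.Injective (fun p : Fin 4 × Quotient (Equiv.Perm.SameCycle.setoid π) =>
      (π ^ (p.1 : ℕ)) p.2.out) := by
    rintro ⟨i, q⟩ ⟨j, q'⟩ hij
    simp only at hij
    have hq : q = q' := by
      rw [← Quotient.out_eq q, ← Quotient.out_eq q']
      apply Quotient.sound
      show π.SameCycle q.out q'.out
      have h1 : π.SameCycle q.out ((π ^ (i : ℕ)) q.out) := ⟨(i : ℕ), by simp⟩
      have h2 : π.SameCycle q'.out ((π ^ (j : ℕ)) q'.out) := ⟨(j : ℕ), by simp⟩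
      rw [← hij] at h2
      exact h1.trans h2.symm
    subst hq
    have key : ∀ a b : ℕ, a ≤ b → b ≤ 3 → (π ^ a) q.out = (π ^ b) q.out → a = b := by
      intro a b hab hb he
      by_contra hne
      have e1 : (π ^ b) q.out = (π ^ a) ((π ^ (b - a)) q.out) := by
        rw [← Equiv.Perm.mul_apply, ← pow_add]
        congr 2
        omega
      rw [e1] at he
      exact h q.out (b - a) (by omega) (by omega) ((π ^ a).injective he).symm
    have hi := i.2
    have hj := j.2
    have : (i : ℕ) = j := by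
      rcases le_total (i : ℕ) j with hl | hl
      · exact key _ _ hl (by omega) hij
      · exact (key _ _ hl (by omega) hij.symm).symm
    rw [Prod.mk.injEq]
    exact ⟨Fin.ext this, rfl⟩
  have := Nat.card_le_card_of_injective _ hinj
  rwa [Nat.card_prod, Nat.card_eq_fintype_card, Fintype.card_fin] at this

lemma rot_ne {r : ℕ} {σ : Equiv.Perm (KX r)} (hσ : RotX σ) (x : KX r) : σ x ≠ x := by
  intro h
  have h1 := hσ.2 x (x.1, x.2 + 1) rfl
  obtain ⟨i, hi⟩ := h1
  rw [Equiv.Perm.zpow_apply_eq_self_of_apply_eq_self h] at hi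
  have h2 : x.2 = x.2 + 1 := congrArg Prod.snd hi
  revert h2
  generalize x.2 = y
  revert y
  decide

variable {c : ℕ} (E : Fin (2 * (3 * c)) ≃ Fin c × Bool × Fin 3)

/-- The pairing of `c` copies of `K_(3,3)`. -/
def kf (d : KX (3 * c)) : KX (3 * c) :=
  (E.symm ((E d.1).1, !(E d.1).2.1, d.2), (E d.1).2.2)

lemma kf_kf (d : KX (3 * c)) : kf E (kf E d) = d := by
  unfold kf
  simp

/-- The same as a permutation. -/
def kk : Equiv.Perm (KX (3 * c)) := ⟨kf E, kf E, kf_kf E, kf_kf E⟩

lemma kk_apply (d : KX (3 * c)) : kk E d = kf E d := rfl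

/-- The copy. -/
def blk (d : KX (3 * c)) : Fin c := (E d.1).1

/-- The side. -/
def side (d : KX (3 * c)) : Bool := (E d.1).2.1

lemma kk_side (d : KX (3 * c)) : side E (kk E d) = !side E d := by
  rw [kk_apply]; unfold side kf; simp

lemma kk_blk (d : KX (3 * c)) : blk E (kk E d) = blk E d := by
  rw [kk_apply]; unfold blk kf; simp

lemma kk_pair : IsPair (kk E) := by
  intro x
  refine ⟨kf_kf E x, fun h => ?_⟩
  have := kk_side E x
  rw [h] at this
  cases hb : side E x <;> rw [hb] at this <;> simp at this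

variable {E}

lemma pi_side {σ : Equiv.Perm (KX (3 * c))} (hσ : RotX σ) (d : KX (3 * c)) :
    side E ((σ * kk E) d) = !side E d := by
  rw [← kk_side E d, Equiv.Perm.mul_apply]
  unfold side
  rw [hσ.1]

lemma pi_blk {σ : Equiv.Perm (KX (3 * c))} (hσ : RotX σ) (d : KX (3 * c)) :
    blk E ((σ * kk E) d) = blk E d := by
  rw [← kk_blk E d, Equiv.Perm.mul_apply]
  unfold blk
  rw [hσ.1]

lemma pi_two {σ : Equiv.Perm (KX (3 * c))} (hσ : RotX σ) (d : KX (3 * c)) :
    (σ * kk E) ((σ * kk E) d) ≠ d := by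
  intro h
  set e := (σ * kk E) d with he
  have h1 : e.1 = (kf E d).1 := by rw [he, Equiv.Perm.mul_apply, hσ.1]; rfl
  have h2 : e ≠ kf E d := by
    rw [he, Equiv.Perm.mul_apply]
    exact rot_ne hσ _
  have h3 : e.2 ≠ (kf E d).2 := fun h' => h2 (Prod.ext h1 h')
  have h4 : ((σ * kk E) e).1 = (kf E e).1 := by rw [Equiv.Perm.mul_apply, hσ.1]; rfl
  rw [h] at h4
  have h5 : (E d.1).2.2 = e.2 := by
    rw [h4]
    unfold kf
    simp
  apply h3
  rw [← h5]
  rfl

lemma pi_pow {σ : Equiv.Perm (KX (3 * c))} (hσ : RotX σ) (d : KX (3 * c)) (j : ℕ) (h1 : 1 ≤ j) (h3 : j ≤ 3) :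
    ((σ * kk E) ^ j) d ≠ d := by
  have s1 := pi_side (E := E) hσ d
  interval_cases j
  · intro h
    rw [pow_one] at h
    rw [h] at s1
    cases hb : side E d <;> rw [hb] at s1 <;> simp at s1
  · rw [pow_two, Equiv.Perm.mul_apply]
    exact pi_two hσ d
  · intro h
    rw [pow_succ, pow_two, Equiv.Perm.mul_apply, Equiv.Perm.mul_apply] at h
    have s2 := pi_side (E := E) hσ ((σ * kk E) d)
    have s3 := pi_side (E := E) hσ ((σ * kk E) ((σ * kk E) d))
    rw [h, s2, s1] at s3
    cases hb : side E d <;> rw [hb] at s3 <;> simp at s3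

/-- The block of darts of the copy `i`. -/
abbrev BB (E : Fin (2 * (3 * c)) ≃ Fin c × Bool × Fin 3) (i : Fin c) : Type := {x : KX (3 * c) // blk E x = i}

/-- Coordinates in a block. -/
def co (i : Fin c) : BB E i ≃ (Bool × Fin 3) × Fin 3 where
  toFun x := ((E x.1.1).2, x.1.2)
  invFun y := ⟨(E.symm (i, y.1), y.2), by unfold blk; simp⟩
  left_inv x := by
    obtain ⟨⟨v, k⟩, hx⟩ := x
    apply Subtype.ext
    have h2 : (E v).1 = i := hx
    show (E.symm (i, (E v).2), k) = (v, k)
    rw [← h2]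
    simp
  right_inv y := by simp

lemma card_BB (i : Fin c) : Nat.card (BB E i) = 18 := by
  rw [Nat.card_congr (co i)]
  simp

lemma sig_iff {σ : Equiv.Perm (KX (3 * c))} (hσ : RotX σ) (i : Fin c) (x : KX (3 * c)) :
    blk E (σ x) = i ↔ blk E x = i := by
  unfold blk
  rw [hσ.1]

lemma kk_iff (i : Fin c) (x : KX (3 * c)) : blk E (kk E x) = i ↔ blk E x = i := by
  rw [kk_blk]

lemma orb_sig {σ : Equiv.Perm (KX (3 * c))} (hσ : RotX σ) (i : Fin c) :
    orb (σ.subtypePerm (p := fun x => blk E x = i) (sig_iff hσ i)) = 6 := by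
  unfold orb
  have e : Quotient (Equiv.Perm.SameCycle.setoid
      (σ.subtypePerm (p := fun x => blk E x = i) (sig_iff hσ i))) ≃ Bool × Fin 3 := by
    refine Equiv.ofBijective (Quotient.lift (fun x : BB E i => (co i x).1) ?_) ⟨?_, ?_⟩
    · intro x y hxy
      have h : (σ.subtypePerm (p := fun x => blk E x = i) (sig_iff hσ i)).SameCycle x y := hxy
      rw [Equiv.Perm.sameCycle_subtypePerm] at h
      obtain ⟨n, hn⟩ := h
      have h1 : y.1.1 = x.1.1 := by
        rw [← hn]
        exact Pool.Agent.Helper83.AF.inv_zpow σ Prod.fst hσ.1 n x.1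
      show (E x.1.1).2 = (E y.1.1).2
      rw [h1]
    · intro q q'
      refine Quotient.inductionOn₂ q q' fun x y hxy => ?_
      apply Quotient.sound
      show (σ.subtypePerm (p := fun x => blk E x = i) (sig_iff hσ i)).SameCycle x y
      rw [Equiv.Perm.sameCycle_subtypePerm]
      have h1 : (E x.1.1).2 = (E y.1.1).2 := hxy
      have h2 : (E x.1.1).1 = i := x.2
      have h3 : (E y.1.1).1 = i := y.2
      exact hσ.2 x.1 y.1 (E.injective (Prod.ext (h2.trans h3.symm) h1))
    · intro y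
      refine ⟨Quotient.mk _ ((co i).symm (y, 0)), ?_⟩
      show ((co i) ((co i).symm (y, 0))).1 = y
      rw [Equiv.apply_symm_apply]
  rw [Nat.card_congr e]
  simp

lemma blk_orb {σ : Equiv.Perm (KX (3 * c))} (hσ : RotX σ) (i : Fin c) :
    orb ((σ * kk E).subtypePerm (p := fun x => blk E x = i) (fun x => by rw [pi_blk hσ])) ≤ 3 := by
  classical
  have hmul : (σ.subtypePerm (p := fun x => blk E x = i) (sig_iff hσ i)) *
      ((kk E).subtypePerm (p := fun x => blk E x = i) (kk_iff i)) =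
      (σ * kk E).subtypePerm (p := fun x => blk E x = i) (fun x => by rw [pi_blk hσ]) := by
    rw [Equiv.Perm.subtypePerm_mul]
  have h4 := four_orb ((σ * kk E).subtypePerm (p := fun x => blk E x = i) (fun x => by rw [pi_blk hσ]))
    (fun x j h1 h3 h => by
      rw [Equiv.Perm.subtypePerm_pow] at h
      have h5 := congrArg Subtype.val h
      exact pi_pow hσ x.1 j h1 h3 h5)
  have hc : Nat.card (BB E i) = 18 := card_BB i
  have hc' : Nat.card {x : KX (3 * c) // blk E x = i} = 18 := hc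
  rw [hc'] at h4
  have hpar := okPAR (BB E i) (σ.subtypePerm (p := fun x => blk E x = i) (sig_iff hσ i))
    ((kk E).subtypePerm (p := fun x => blk E x = i) (kk_iff i)) (fun x => by
      refine ⟨Subtype.ext (kk_pair E x.1).1, fun h => (kk_pair E x.1).2 (congrArg Subtype.val h)⟩)
  rw [hmul, orb_sig hσ i, ← Nat.card_eq_fintype_card, hc] at hpar
  rcases hpar with ⟨m, hm⟩
  omega

lemma orb_le {σ : Equiv.Perm (KX (3 * c))} (hσ : RotX σ) : orb (σ * kk E) ≤ 3 * c := by
  classical
  rw [okBLK (KX (3 * c)) (Fin c) (σ * kk E) (blk E) (fun x => pi_blk hσ x)]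
  calc _ ≤ ∑ _i : Fin c, 3 := Finset.sum_le_sum fun i _ => blk_orb hσ i
    _ = 3 * c := by simp [mul_comm]

lemma comps (E : Fin (2 * (3 * c)) ≃ Fin c × Bool × Fin 3) : c ≤ cmq (kk E) Prod.fst := by
  unfold cmq
  have : Finite (Quot (fun a b : KX (3 * c) => b = kk E a ∨ Prod.fst b = Prod.fst a)) := Quot.finite _
  have hs : Function.Surjective (Quot.lift (r := fun a b : KX (3 * c) => b = kk E a ∨ Prod.fst b = Prod.fst a)
      (blk E) (by
        rintro a b (h | h)
        · rw [h, kk_blk]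
        · unfold blk
          rw [h])) := by
    intro i
    refine ⟨Quot.mk _ (E.symm (i, true, 0), 0), ?_⟩
    show (E (E.symm (i, true, 0))).1 = i
    simp
  have := Nat.card_le_card_of_surjective _ hs
  rwa [Nat.card_eq_fintype_card, Fintype.card_fin] at this

theorem not_emb (g : ℕ) : ∃ κ : Equiv.Perm (KX (3 * (g + 1))), IsPair κ ∧ ¬ EmbX g κ := by
  have E : Fin (2 * (3 * (g + 1))) ≃ Fin (g + 1) × Bool × Fin 3 :=
    Fintype.equivOfCardEq (by simp; ring)
  refine ⟨kk E, kk_pair E, ?_⟩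
  rintro ⟨σ, hσ, h⟩
  have h1 := orb_le (E := E) hσ
  have h2 := comps E
  omega

theorem eg_lt (g : ℕ) : eg g (3 * (g + 1)) < ee (3 * (g + 1)) := by
  classical
  set r := 3 * (g + 1) with hr
  have hpmc := okPMC (KX r) (3 * r) (by simp [KX]; ring)
  rw [show 2 * (3 * r) - 1 = 6 * r - 1 by omega] at hpmc
  have key : Nat.card {κ : Equiv.Perm (KX r) // IsPair κ ∧ EmbX g κ} < Nat.doubleFactorial (6 * r - 1) := by
    rw [← hpmc]
    simp only [Nat.card_eq_fintype_card, Fintype.card_subtype]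
    refine Finset.card_lt_card ?_
    rw [Finset.ssubset_iff_of_subset]
    · obtain ⟨κ, h1, h2⟩ := not_emb g
      refine ⟨κ, ?_, ?_⟩
      · rw [Finset.mem_filter]; exact ⟨Finset.mem_univ _, h1⟩
      · rw [Finset.mem_filter]; exact fun h => h2 h.2.2
    · intro κ h
      rw [Finset.mem_filter] at h ⊢
      exact ⟨h.1, h.2.1⟩
  unfold eg ee
  refine div_lt_div_of_pos_right ?_ (by positivity)
  exact_mod_cast key

end Pool.Agent.Helper96.AX.K33
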