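import Mathlib
import Pool.Agent.Helper96.AX.Base

/-! Project AX: the left tail. -/

namespace Pool.Agent.Helper96.AX

open Finset Filter Topology Pool.Agent.Helper26.AF Pool.Agent.Helper26.AL MeasureTheory
open Pool.Agent.Helper96.AW

lemma p0_low : ∃ C : ℝ, 0 < C ∧ ∀ l : ℝ, l < 0 → 1 - C / (-l) ^ 3 ≤ p0 l := by
  obtain ⟨C, hC, h⟩ := tail (k := 1) le_rfl
  refine ⟨C, hC, fun l hl => ?_⟩
  have h1 := h l hl
  rw [mul_one] at h1
  have hsum : Summable (fun r : ℕ => dd r * JJ l r) := by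
    refine Summable.of_norm_bounded (bAF l) fun r => ?_
    rw [Real.norm_eq_abs, abs_mul, abs_of_nonneg (JJ_nonneg _ _)]
    exact mul_le_mul_of_nonneg_right (AB.dd_abs r) (JJ_nonneg _ _)
  unfold p0
  rw [← hsum.sum_add_tsum_nat_add 1]
  have e0 : ∑ i ∈ range 1, dd i * JJ l i = 1 := by
    simp [AB.dd_zero, JJ]
  rw [e0]
  have h2 : -∑' s : ℕ, ee (s + 1) * JJ l (s + 1) ≤ ∑' s : ℕ, dd (s + 1) * JJ l (s + 1) := by
    rw [← tsum_neg]
    refine Summable.tsum_le_tsum (fun s => ?_) ((summable_nat_add_iff 1).2 (bAF l)).neg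
      ((summable_nat_add_iff 1).2 hsum)
    have := (abs_le.1 (AB.dd_abs (s + 1))).1
    have := mul_le_mul_of_nonneg_right this (JJ_nonneg l (s + 1))
    linarith
  linarith

lemma pow_atBot {k : ℕ} (hk : k ≠ 0) : Tendsto (fun l : ℝ => (-l) ^ k) atBot atTop :=
  (tendsto_pow_atTop hk).comp tendsto_neg_atBot_atTop

lemma p0_lim : Tendsto p0 atBot (𝓝 1) := by
  obtain ⟨C, _, h⟩ := p0_low
  have h1 : Tendsto (fun l : ℝ => 1 - C / (-l) ^ 3) atBot (𝓝 1) := by
    have := ((pow_atBot (k := 3) (by norm_num)).const_div_atTop C).const_sub 1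
    simpa using this
  refine tendsto_of_tendsto_of_tendsto_of_le_of_le' h1 tendsto_const_nhds ?_ ?_
  · filter_upwards [eventually_lt_atBot (0 : ℝ)] with l hl using h l hl
  · exact Eventually.of_forall fun l => (bAI.1 l).2

/-- The scaled integrand. -/
noncomputable def G (r : ℕ) (L u : ℝ) : ℝ :=
  ww r u * Real.exp (-(u / 2 + u ^ 2 / (2 * L ^ 3) + u ^ 3 / (6 * L ^ 6)))

lemma ww_scale {r : ℕ} {b u : ℝ} (hb : 0 < b) (hu : 0 < u) :
    ww r (b * u) = b ^ (3 * (r : ℝ) / 2 - 1) * ww r u := by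
  unfold ww
  rw [Real.mul_rpow hb.le hu.le]
  ring

lemma JJ_scale {r : ℕ} (hr : 1 ≤ r) {L : ℝ} (hL : 0 < L) :
    L ^ (3 * r) * JJ (-L) r = ∫ u in Set.Ioi (0 : ℝ), G r L u := by
  rw [AC.JJ_eq (-L) hr]
  set b : ℝ := (L ^ 2)⁻¹ with hb
  have hb0 : 0 < b := by positivity
  have h := integral_comp_mul_left_Ioi' (fun x => ww r x * Real.exp (-(FF x (-L)))) 0 hb0
  rw [mul_zero, smul_eq_mul] at h
  rw [← h, ← mul_assoc, ← integral_const_mul]
  refine setIntegral_congr_fun measurableSet_Ioi fun u hu => ?_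
  have hu' : (0 : ℝ) < u := hu
  show L ^ (3 * r) * b * (ww r (b * u) * Real.exp (-(FF (b * u) (-L)))) = G r L u
  rw [ww_scale hb0 hu']
  have e1 : L ^ (3 * r) * b * b ^ (3 * (r : ℝ) / 2 - 1) = 1 := by
    have e2 : b * b ^ (3 * (r : ℝ) / 2 - 1) = b ^ (3 * (r : ℝ) / 2) := by
      rw [← Real.rpow_one_add' hb0.le (by
        have : (1 : ℝ) ≤ r := by exact_mod_cast hr
        linarith)]
      congr 1
      ring
    rw [mul_assoc, e2, hb, Real.inv_rpow (by positivity), ← Real.rpow_natCast L 2,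
      ← Real.rpow_mul hL.le, ← Real.rpow_natCast L (3 * r)]
    rw [show ((2 : ℕ) : ℝ) * (3 * (r : ℝ) / 2) = ((3 * r : ℕ) : ℝ) by push_cast; ring]
    exact mul_inv_cancel₀ (by positivity)
  have e3 : FF (b * u) (-L) = u / 2 + u ^ 2 / (2 * L ^ 3) + u ^ 3 / (6 * L ^ 6) := by
    unfold FF
    rw [hb]
    field_simp
    ring
  rw [e3]
  unfold G
  calc L ^ (3 * r) * b * (b ^ (3 * (r : ℝ) / 2 - 1) * ww r u * Real.exp (-(u / 2 + u ^ 2 / (2 * L ^ 3) +
        u ^ 3 / (6 * L ^ 6))))
      = (L ^ (3 * r) * b * b ^ (3 * (r : ℝ) / 2 - 1)) * (ww r u * Real.exp (-(u / 2 + u ^ 2 / (2 * L ^ 3) +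
        u ^ 3 / (6 * L ^ 6)))) := by ring
    _ = _ := by rw [e1, one_mul]

lemma int_one {r : ℕ} (hr : 1 ≤ r) : IntegrableOn (fun u => ww r u * Real.exp (-(u / 2))) (Set.Ioi 0) ∧
    ∫ u in Set.Ioi (0 : ℝ), ww r u * Real.exp (-(u / 2)) = 1 := by
  have hr0 : (1 : ℝ) ≤ r := by exact_mod_cast hr
  set a : ℝ := 3 * (r : ℝ) / 2 with ha
  have ha0 : 0 < a := by positivity
  have h1 := int_gam' ha0 (show (-1 : ℝ) < 0 by norm_num)
  have h2 := int_gam ha0 (show (-1 : ℝ) < 0 by norm_num)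
  have e : ∀ u : ℝ, ww r u * Real.exp (-(u / 2)) =
      (2 ^ a * Real.Gamma a)⁻¹ * (u ^ (a - 1) * Real.exp (-((-1 : ℝ) ^ 2 * u / 2))) := by
    intro u
    unfold ww
    rw [← ha]
    have : (-1 : ℝ) ^ 2 * u / 2 = u / 2 := by ring
    rw [this]
    ring
  have hc := AC.cs_pos hr
  rw [← ha] at hc
  constructor
  · refine (h1.const_mul ((2 ^ a * Real.Gamma a)⁻¹)).congr ?_
    exact Eventually.of_forall fun u => (e u).symm
  · simp only [e]
    rw [integral_const_mul, h2]
    norm_num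
    have h3 : (2 : ℝ) ^ a * Real.Gamma a ≠ 0 := hc.ne'
    have h4 : (2 : ℝ) ^ a ≠ 0 := by positivity
    have h5 : Real.Gamma a ≠ 0 := (Real.Gamma_pos_of_pos ha0).ne'
    field_simp

lemma G_meas (r : ℕ) (L : ℝ) : Measurable (G r L) := by
  unfold G ww
  fun_prop

lemma G_lim {r : ℕ} (hr : 1 ≤ r) : Tendsto (fun L : ℝ => ∫ u in Set.Ioi (0 : ℝ), G r L u) atTop (𝓝 1) := by
  rw [← (int_one hr).2]
  refine tendsto_integral_filter_of_dominated_convergence (l := (atTop : Filter ℝ))
    (μ := volume.restrict (Set.Ioi (0 : ℝ)))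
    (F := fun (L : ℝ) (u : ℝ) => G r L u) (f := fun u : ℝ => ww r u * Real.exp (-(u / 2)))
    (fun u => ww r u * Real.exp (-(u / 2))) ?_ ?_ (int_one hr).1 ?_
  · exact Eventually.of_forall fun L => (G_meas r L).aestronglyMeasurable
  · filter_upwards [eventually_gt_atTop (0 : ℝ)] with L hL
    refine (ae_restrict_iff' measurableSet_Ioi).2 (Eventually.of_forall fun u hu => ?_)
    have hu' : (0 : ℝ) < u := hu
    unfold G
    rw [Real.norm_of_nonneg (mul_nonneg (AC.ww_nonneg hr hu'.le) (Real.exp_nonneg _))]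
    refine mul_le_mul_of_nonneg_left (Real.exp_le_exp.2 ?_) (AC.ww_nonneg hr hu'.le)
    have h1 : 0 ≤ u ^ 2 / (2 * L ^ 3) := by positivity
    have h2 : 0 ≤ u ^ 3 / (6 * L ^ 6) := by positivity
    linarith
  · refine (ae_restrict_iff' measurableSet_Ioi).2 (Eventually.of_forall fun u hu => ?_)
    have h1 : Tendsto (fun L : ℝ => u ^ 2 / (2 * L ^ 3)) atTop (𝓝 0) :=
      ((tendsto_pow_atTop (by norm_num : (3 : ℕ) ≠ 0)).const_mul_atTop (by norm_num)).const_div_atTop _
    have h2 : Tendsto (fun L : ℝ => u ^ 3 / (6 * L ^ 6)) atTop (𝓝 0) :=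
      ((tendsto_pow_atTop (by norm_num : (6 : ℕ) ≠ 0)).const_mul_atTop (by norm_num)).const_div_atTop _
    have h3 : Tendsto (fun L : ℝ => -(u / 2 + u ^ 2 / (2 * L ^ 3) + u ^ 3 / (6 * L ^ 6))) atTop
        (𝓝 (-(u / 2))) := by
      have := (((tendsto_const_nhds (x := u / 2)).add h1).add h2).neg
      simpa using this
    exact ((Real.continuous_exp.tendsto _).comp h3).const_mul (ww r u)

theorem JJ_lim {r : ℕ} (hr : 1 ≤ r) : Tendsto (fun l : ℝ => (-l) ^ (3 * r) * JJ l r) atBot (𝓝 1) := by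
  have h := (G_lim hr).comp tendsto_neg_atBot_atTop
  refine h.congr' ?_
  filter_upwards [eventually_lt_atBot (0 : ℝ)] with l hl
  have := JJ_scale hr (show 0 < -l by linarith)
  rw [neg_neg] at this
  exact this.symm

theorem PP_lim {r : ℕ} (hr : 1 ≤ r) : Tendsto (fun l : ℝ => (-l) ^ (3 * r) * PP l r) atBot (𝓝 1) := by
  have hJ := JJ_lim hr
  have hPJ : ∀ l, PP l r ≤ JJ l r := fun l => (facts.PPb l r).2
  rw [tendsto_order]
  constructor
  · intro a ha
    set ε : ℝ := (1 - a) / 2 with hε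
    have hε0 : 0 < ε := by rw [hε]; linarith
    rcases le_or_gt a 0 with ha0 | ha0
    · rcases ha0.lt_or_eq with h | h
      · filter_upwards [eventually_lt_atBot (0 : ℝ)] with l hl
        have h1 : 0 ≤ (-l) ^ (3 * r) * PP l r := by
          have := (facts.PPb l r).1
          have : 0 < -l := by linarith
          positivity
        linarith
      · -- a = 0
        have h1 := p0_lim.eventually (lt_mem_nhds (show (1 / 2 : ℝ) < 1 by norm_num))
        obtain ⟨M, hM⟩ := eventually_atBot.1 h1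
        filter_upwards [hJ.eventually (lt_mem_nhds (show (0 : ℝ) < 1 by norm_num)), eventually_le_atBot M,
          eventually_lt_atBot (0 : ℝ)] with l h2 h3 h4
        rw [h]
        have h5 : 1 / 2 * JJ l r ≤ PP l r := by
          rw [AC.JJ_eq l hr, (bAH l r hr).2, ← integral_const_mul]
          refine setIntegral_mono_on ((AC.integ l hr).const_mul _) (bAH l r hr).1 measurableSet_Ioi
            fun x hx => ?_
          have hx' : (0 : ℝ) < x := hx
          have h6 := (hM (l - x) (by linarith)).le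
          have h7 : 0 ≤ ww r x * Real.exp (-(FF x l)) :=
            mul_nonneg (AC.ww_nonneg hr hx'.le) (Real.exp_nonneg _)
          nlinarith
        have h8 : 0 < (-l) ^ (3 * r) := by
          have : 0 < -l := by linarith
          positivity
        nlinarith
    · have h1 := p0_lim.eventually (lt_mem_nhds (show 1 - ε < 1 by linarith))
      obtain ⟨M, hM⟩ := eventually_atBot.1 h1
      filter_upwards [hJ.eventually (lt_mem_nhds (show 1 - ε < 1 by linarith)), eventually_le_atBot M,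
        eventually_lt_atBot (0 : ℝ)] with l h2 h3 h4
      have h5 : (1 - ε) * JJ l r ≤ PP l r := by
        rw [AC.JJ_eq l hr, (bAH l r hr).2, ← integral_const_mul]
        refine setIntegral_mono_on ((AC.integ l hr).const_mul _) (bAH l r hr).1 measurableSet_Ioi
          fun x hx => ?_
        have hx' : (0 : ℝ) < x := hx
        have h6 := (hM (l - x) (by linarith)).le
        have h7 : 0 ≤ ww r x * Real.exp (-(FF x l)) :=
          mul_nonneg (AC.ww_nonneg hr hx'.le) (Real.exp_nonneg _)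
        nlinarith
      have h8 : 0 < (-l) ^ (3 * r) := by
        have : 0 < -l := by linarith
        positivity
      have h9 : 0 < 1 - ε := by rw [hε]; linarith
      have h10 : (1 - ε) * ((-l) ^ (3 * r) * JJ l r) ≤ (-l) ^ (3 * r) * PP l r := by
        have := mul_le_mul_of_nonneg_left h5 h8.le
        linarith
      have h11 : a < (1 - ε) * (1 - ε) := by rw [hε]; nlinarith
      have h12 : (1 - ε) * (1 - ε) < (1 - ε) * ((-l) ^ (3 * r) * JJ l r) :=
        mul_lt_mul_of_pos_left h2 h9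
      linarith
  · intro a ha
    filter_upwards [hJ.eventually (gt_mem_nhds ha), eventually_lt_atBot (0 : ℝ)] with l h1 h2
    have h8 : 0 < (-l) ^ (3 * r) := by
      have : 0 < -l := by linarith
      positivity
    have := mul_le_mul_of_nonneg_left (hPJ l) h8.le
    linarith

/-- The left tail: if `eg g s = ee s` for all `s < r`, then `|l|^(3r) (1 - p_g(l)) → ee r - eg g r`. -/
theorem left {g r : ℕ} (hr : 1 ≤ r) (h : ∀ s < r, eg g s = ee s) :
    Tendsto (fun l : ℝ => (-l) ^ (3 * r) * (1 - pg g l)) atBot (𝓝 (ee r - eg g r)) := by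
  obtain ⟨C, hC, ht⟩ := tail (k := r + 1) (by omega)
  have hsplit : ∀ l : ℝ, 1 - pg g l = (ee r - eg g r) * PP l r +
      ∑' s : ℕ, (ee (s + (r + 1)) - eg g (s + (r + 1))) * PP l (s + (r + 1)) := by
    intro l
    rw [FA.one_sub facts, ← (FA.summ_diff facts g l).sum_add_tsum_nat_add (r + 1),
      Finset.sum_range_succ, Finset.sum_eq_zero (fun s hs => by
        rw [h s (Finset.mem_range.1 hs)]; simp), zero_add]
  have hrest : ∀ l : ℝ, l < 0 →
      0 ≤ ∑' s : ℕ, (ee (s + (r + 1)) - eg g (s + (r + 1))) * PP l (s + (r + 1)) ∧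
      ∑' s : ℕ, (ee (s + (r + 1)) - eg g (s + (r + 1))) * PP l (s + (r + 1)) ≤
        C / (-l) ^ (3 * (r + 1)) := by
    intro l hl
    refine ⟨tsum_nonneg fun s => FA.diff_nonneg facts g l _, ?_⟩
    refine le_trans ?_ (ht l hl)
    refine ((summable_nat_add_iff (r + 1)).2 (FA.summ_diff facts g l)).tsum_le_tsum (fun s => ?_)
      ((summable_nat_add_iff (r + 1)).2 (bAF l))
    have h1 : ee (s + (r + 1)) - eg g (s + (r + 1)) ≤ ee (s + (r + 1)) := by
      linarith [(facts.eg_le g (s + (r + 1))).1]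
    exact mul_le_mul h1 (facts.PPb _ _).2 (facts.PPb _ _).1 (ee_pos _).le
  have h1 : Tendsto (fun l : ℝ => (ee r - eg g r) * ((-l) ^ (3 * r) * PP l r)) atBot
      (𝓝 (ee r - eg g r)) := by
    simpa using (PP_lim hr).const_mul (ee r - eg g r)
  have h2 : Tendsto (fun l : ℝ => (-l) ^ (3 * r) *
      ∑' s : ℕ, (ee (s + (r + 1)) - eg g (s + (r + 1))) * PP l (s + (r + 1))) atBot (𝓝 0) := by
    have h3 : Tendsto (fun l : ℝ => C / (-l) ^ 3) atBot (𝓝 0) :=
      (pow_atBot (k := 3) (by norm_num)).const_div_atTop C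
    refine squeeze_zero' ?_ ?_ h3
    · filter_upwards [eventually_lt_atBot (0 : ℝ)] with l hl
      have : 0 < -l := by linarith
      exact mul_nonneg (by positivity) (hrest l hl).1
    · filter_upwards [eventually_lt_atBot (0 : ℝ)] with l hl
      have hl' : 0 < -l := by linarith
      calc (-l) ^ (3 * r) * ∑' s : ℕ, (ee (s + (r + 1)) - eg g (s + (r + 1))) * PP l (s + (r + 1))
          ≤ (-l) ^ (3 * r) * (C / (-l) ^ (3 * (r + 1))) :=
            mul_le_mul_of_nonneg_left (hrest l hl).2 (by positivity)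
        _ = C / (-l) ^ 3 := by
            rw [show 3 * (r + 1) = 3 * r + 3 by ring, pow_add]
            field_simp
  have h3 := h1.add h2
  rw [add_zero] at h3
  refine h3.congr fun l => ?_
  rw [hsplit l]
  ring

end Pool.Agent.Helper96.AX
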