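import Mathlib
import Pool.Agent.Helper96.AX.Left
import Pool.Agent.Helper96.AX.K33

/-! Project AX: the smallest kernels which do not embed. -/

namespace Pool.Agent.Helper96.AX.LT

open Finset Filter Topology Pool.Agent.Helper26.AF Pool.Agent.Helper26.AL Pool.Agent.Helper96.AW

/-- The weighted number of cubic multigraphs with `2 r` vertices which do not embed. -/
noncomputable def bad (g r : ℕ) : ℝ :=
  (Nat.card {κ : Equiv.Perm (KX r) // IsPair κ ∧ ¬ EmbX g κ} : ℝ) / (((2 * r).factorial : ℝ) * 36 ^ r)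

lemma bad_eq (g r : ℕ) : ee r - eg g r = bad g r := by
  classical
  have hpmc := okPMC (KX r) (3 * r) (by simp [KX]; ring)
  rw [show 2 * (3 * r) - 1 = 6 * r - 1 by omega] at hpmc
  have key : Nat.card {κ : Equiv.Perm (KX r) // IsPair κ ∧ EmbX g κ} +
      Nat.card {κ : Equiv.Perm (KX r) // IsPair κ ∧ ¬ EmbX g κ} = Nat.doubleFactorial (6 * r - 1) := by
    rw [← hpmc]
    simp only [Nat.card_eq_fintype_card, Fintype.card_subtype]
    rw [← Finset.card_union_of_disjoint]
    · congr 1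
      ext κ
      simp only [Finset.mem_union, Finset.mem_filter, Finset.mem_univ, true_and]
      constructor
      · rintro (h | h) <;> exact h.1
      · intro h
        by_cases h' : EmbX g κ
        · exact Or.inl ⟨h, h'⟩
        · exact Or.inr ⟨h, h'⟩
    · rw [Finset.disjoint_left]
      intro κ h1 h2
      rw [Finset.mem_filter] at h1 h2
      exact h2.2.2 h1.2.2
  unfold eg ee bad
  rw [← sub_div]
  congr 1
  rw [← key]
  push_cast
  ring

lemma exists_ne (g : ℕ) : ∃ s : ℕ, ∃ κ : Equiv.Perm (KX s), IsPair κ ∧ ¬ EmbX g κ :=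
  ⟨3 * (g + 1), K33.not_emb g⟩

open Classical in
/-- The least `r` such that some cubic multigraph with `2 r` vertices does not embed. -/
noncomputable def rr (g : ℕ) : ℕ := Nat.find (exists_ne g)

lemma rr_spec (g : ℕ) : ∃ κ : Equiv.Perm (KX (rr g)), IsPair κ ∧ ¬ EmbX g κ := by
  classical
  exact Nat.find_spec (exists_ne g)

lemma rr_min (g s : ℕ) (hs : s < rr g) : ∀ κ : Equiv.Perm (KX s), IsPair κ → EmbX g κ := by
  classical
  intro κ hκ
  by_contra h
  exact Nat.find_min (exists_ne g) hs ⟨κ, hκ, h⟩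

lemma rr_le (g : ℕ) : rr g ≤ 3 * g + 3 := by
  classical
  have h : rr g ≤ 3 * (g + 1) := Nat.find_min' (exists_ne g) (K33.not_emb g)
  omega

lemma bad_pos (g : ℕ) : 0 < bad g (rr g) := by
  unfold bad
  obtain ⟨κ, h1, h2⟩ := rr_spec g
  have : Nonempty {κ : Equiv.Perm (KX (rr g)) // IsPair κ ∧ ¬ EmbX g κ} := ⟨⟨κ, h1, h2⟩⟩
  have : 0 < Nat.card {κ : Equiv.Perm (KX (rr g)) // IsPair κ ∧ ¬ EmbX g κ} := Nat.card_pos
  positivity

lemma bad_zero {g s : ℕ} (h : bad g s = 0) : ∀ κ : Equiv.Perm (KX s), IsPair κ → EmbX g κ := by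
  intro κ hκ
  by_contra h2
  have : Nonempty {κ : Equiv.Perm (KX s) // IsPair κ ∧ ¬ EmbX g κ} := ⟨⟨κ, hκ, h2⟩⟩
  have h3 : 0 < Nat.card {κ : Equiv.Perm (KX s) // IsPair κ ∧ ¬ EmbX g κ} := Nat.card_pos
  have : 0 < bad g s := by
    unfold bad
    positivity
  linarith

lemma eg_eq (g s : ℕ) (hs : s < rr g) : eg g s = ee s := by
  have h := bad_eq g s
  have h0 : bad g s = 0 := by
    unfold bad
    have : IsEmpty {κ : Equiv.Perm (KX s) // IsPair κ ∧ ¬ EmbX g κ} :=
      ⟨fun x => x.2.2 (rr_min g s hs x.1 x.2.1)⟩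
    rw [Nat.card_of_isEmpty]
    simp
  linarith

lemma le_rr (g : ℕ) : 2 * g + 1 ≤ rr g := by
  by_contra h
  have h1 : rr g ≤ 2 * g := by omega
  have h2 := facts.gc g (rr g) h1
  have h3 := bad_eq g (rr g)
  have h4 := bad_pos g
  linarith

lemma rr_lim : Tendsto (fun g : ℕ => (rr g : ℝ) / g) atTop (𝓝 2) := by
  rw [tendsto_order]
  constructor
  · intro a ha
    filter_upwards [eventually_gt_atTop 0] with g hg
    have hg' : (0 : ℝ) < g := by exact_mod_cast hg
    have h : ((2 * g + 1 : ℕ) : ℝ) ≤ rr g := by exact_mod_cast le_rr g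
    push_cast at h
    rw [lt_div_iff₀ hg']
    nlinarith
  · intro a ha
    obtain ⟨g₀, h₀⟩ := facts.gd ((a - 2) / 2) (by linarith)
    have h1 : Tendsto (fun g : ℕ => 2 + (a - 2) / 2 + 1 / (g : ℝ)) atTop (𝓝 (2 + (a - 2) / 2)) := by
      have := (tendsto_const_div_atTop_nhds_zero_nat (1 : ℝ)).const_add (2 + (a - 2) / 2)
      simpa using this
    filter_upwards [eventually_ge_atTop g₀, eventually_gt_atTop 0,
      h1.eventually (gt_mem_nhds (show 2 + (a - 2) / 2 < a by linarith))] with g hg hg0 h2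
    have hg' : (0 : ℝ) < g := by exact_mod_cast hg0
    set s := ⌈(2 + (a - 2) / 2) * (g : ℝ)⌉₊ with hs
    have hs1 : (2 + (a - 2) / 2) * (g : ℝ) ≤ s := Nat.le_ceil _
    have hs2 : (s : ℝ) < (2 + (a - 2) / 2) * (g : ℝ) + 1 := Nat.ceil_lt_add_one (by
      have : 0 < 2 + (a - 2) / 2 := by linarith
      positivity)
    have h3 := h₀ g hg s hs1
    have h4 : rr g ≤ s := by
      by_contra h5
      have h6 := eg_eq g s (by omega)
      have h7 := ee_pos s
      linarith
    have h5 : (rr g : ℝ) ≤ s := by exact_mod_cast h4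
    have h6 : (rr g : ℝ) / g < 2 + (a - 2) / 2 + 1 / g := by
      rw [div_lt_iff₀ hg']
      have : (2 + (a - 2) / 2 + 1 / (g : ℝ)) * g = (2 + (a - 2) / 2) * g + 1 := by
        field_simp
      rw [this]
      linarith
    linarith

theorem lim (g : ℕ) : Tendsto (fun l : ℝ => |l| ^ (3 * rr g) * (1 - pg g l)) atBot (𝓝 (bad g (rr g))) := by
  have h1 := left (g := g) (r := rr g) (by have := le_rr g; omega) (fun s hs => eg_eq g s hs)
  rw [bad_eq] at h1
  refine h1.congr' ?_
  filter_upwards [eventually_lt_atBot (0 : ℝ)] with l hl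
  rw [abs_of_neg hl]

end Pool.Agent.Helper96.AX.LT
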