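import Mathlib
import Pool.Agent.Helper26.AL.All

/-! Project AX: many planar kernels. -/

namespace Pool.Agent.Helper96.AX.Neck

open Finset Pool.Agent.Helper26.AF Pool.Agent.Helper26.AL

lemma ia {α : Type} (f : Equiv.Perm α) (x : α) : f⁻¹ (f x) = x := f.symm_apply_apply x

lemma ai {α : Type} (f : Equiv.Perm α) (x : α) : f (f⁻¹ x) = x := f.apply_symm_apply x

set_option linter.unusedSectionVars false

variable {s : ℕ} [NeZero s] (E : Fin (2 * s) ≃ Fin s × Bool)

/-- The pairing of the necklace. -/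
def kf (d : KX s) : KX s :=
  (E.symm (if d.2 = 0 then (if (E d.1).2 then (E d.1).1 + 1 else (E d.1).1 - 1) else (E d.1).1, !(E d.1).2),
    -d.2)

lemma neg_zero_iff : ∀ i : Fin 3, (-i = 0 ↔ i = 0) := by decide

lemma kf_kf (d : KX s) : kf E (kf E d) = d := by
  obtain ⟨v, i⟩ := d
  unfold kf
  by_cases h : i = 0
  · subst h
    cases hb : (E v).2
    · simp [hb]
      rw [← hb]
      simp
    · simp [hb]
      rw [← hb]
      simp
  · simp [h, neg_zero_iff]

/-- The same as a permutation. -/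
def kk : Equiv.Perm (KX s) := ⟨kf E, kf E, kf_kf E, kf_kf E⟩

lemma kk_apply (d : KX s) : kk E d = kf E d := rfl

lemma kk_pair : IsPair (kk E) := by
  intro x
  refine ⟨kf_kf E x, fun h => ?_⟩
  have h1 := congrArg (fun d : KX s => (E d.1).2) h
  rw [kk_apply] at h1
  unfold kf at h1
  simp at h1

/-- The standard rotation. -/
def s0 (s : ℕ) : Equiv.Perm (KX s) := ⟨fun d => (d.1, d.2 + 1), fun d => (d.1, d.2 - 1),
  fun d => by simp, fun d => by simp⟩

lemma s0_apply (d : KX s) : s0 s d = (d.1, d.2 + 1) := rfl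

lemma fin3 : ∀ a b : Fin 3, b = a ∨ b = a + 1 ∨ b = a + 1 + 1 := by decide

lemma s0_pow {x y : KX s} (h : x.1 = y.1) : ∃ n : ℕ, (s0 s ^ n) x = y := by
  obtain ⟨v, a⟩ := x
  obtain ⟨w, b⟩ := y
  have hv : v = w := h
  subst hv
  rcases fin3 a b with h | h | h
  · exact ⟨0, by rw [h]; rfl⟩
  · exact ⟨1, by rw [h]; rfl⟩
  · exact ⟨2, by rw [h]; rfl⟩

lemma s0_rot : RotX (s0 s) := by
  refine ⟨fun x => rfl, fun x y h => ?_⟩
  obtain ⟨n, hn⟩ := s0_pow h
  exact ⟨n, by rw [zpow_natCast]; exact hn⟩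

/-- The face of a dart. -/
def fc (d : KX s) : Option (Option (Fin s)) :=
  if d.2 = 2 then some (some (E d.1).1) else
    if (d.2 = 0 ↔ (E d.1).2 = true) then none else some none

lemma fc_inv (d : KX s) : fc E ((s0 s * kk E) d) = fc E d := by
  obtain ⟨v, i⟩ := d
  rw [Equiv.Perm.mul_apply, kk_apply, s0_apply]
  unfold fc kf
  have h3 : i = 0 ∨ i = 1 ∨ i = 2 := by revert i; decide
  rcases h3 with h | h | h <;> subst h <;> cases hb : (E v).2 <;> simp [hb] <;> decide

lemma fc_surj : Function.Surjective (fc E) := by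
  intro y
  rcases y with _ | _ | j
  · refine ⟨(E.symm (0, true), 0), ?_⟩
    unfold fc
    simp
  · refine ⟨(E.symm (0, false), 0), ?_⟩
    unfold fc
    simp
  · refine ⟨(E.symm (j, false), 2), ?_⟩
    unfold fc
    simp

lemma orb_ge {D X : Type} [Finite D] (π : Equiv.Perm D) (f : D → X) (hf : ∀ x, f (π x) = f x)
    (hs : Function.Surjective f) : Nat.card X ≤ orb π := by
  unfold orb
  have hpow : ∀ (n : ℕ) (x : D), f ((π ^ n) x) = f x := by
    intro n
    induction n with
    | zero => intro x; rfl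
    | succ n ih => intro x; rw [pow_succ', Equiv.Perm.mul_apply, hf, ih]
  refine Nat.card_le_card_of_surjective (Quotient.lift f ?_) ?_
  · intro a b hab
    have hab' : π.SameCycle a b := hab
    obtain ⟨n, hn⟩ := hab'.exists_nat_pow_eq
    rw [← hn, hpow]
  · intro x
    obtain ⟨d, hd⟩ := hs x
    exact ⟨Quotient.mk _ d, hd⟩

lemma nsmul_val (n : ℕ) : (n • (1 : Fin s)).val = n % s := by
  induction n with
  | zero => simp
  | succ n ih =>
    rw [succ_nsmul, Fin.val_add, ih, Fin.val_one']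
    simp [Nat.add_mod]

/-- Connectedness. -/
lemma conn (P : KX s → Prop) (h1 : ∀ x, P x → P (kk E x)) (h2 : ∀ x y : KX s, x.1 = y.1 → P x → P y)
    (h3 : ∃ x, P x) : ∀ x, P x := by
  have a1 : ∀ (j : Fin s) (b : Bool) (i : Fin 3), P (E.symm (j, b), i) → ∀ i' : Fin 3, P (E.symm (j, !b), i') := by
    intro j b i h i'
    have h4 := h2 (E.symm (j, b), i) (E.symm (j, b), 1) rfl h
    have h5 := h1 _ h4
    rw [kk_apply] at h5
    unfold kf at h5
    simp at h5
    exact h2 (E.symm (j, !b), -1) (E.symm (j, !b), i') rfl h5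
  have a2 : ∀ (j : Fin s), (∃ b i, P (E.symm (j, b), i)) → ∀ b i, P (E.symm (j, b), i) := by
    rintro j ⟨b, i, h⟩ b' i'
    have h4 := a1 j b i h
    have h5 := a1 j (!b) i (h4 i)
    cases b <;> cases b' <;> simp at h4 h5 <;> first | exact h4 _ | exact h5 _
  have a3 : ∀ (j : Fin s), (∀ b i, P (E.symm (j, b), i)) → ∀ b i, P (E.symm (j + 1, b), i) := by
    intro j h
    apply a2
    have h5 := h1 _ (h true 0)
    rw [kk_apply] at h5
    unfold kf at h5
    simp at h5
    exact ⟨_, _, h5⟩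
  have a4 : ∀ (n : ℕ) (j : Fin s), (∀ b i, P (E.symm (j, b), i)) → ∀ b i, P (E.symm (j + n • (1 : Fin s), b), i) := by
    intro n
    induction n with
    | zero => intro j h; simpa using h
    | succ n ih =>
      intro j h
      have := a3 _ (ih j h)
      rw [succ_nsmul, ← add_assoc]
      exact this
  obtain ⟨⟨v, i⟩, hx⟩ := h3
  have h6 : ∀ b i, P (E.symm ((E v).1, b), i) := a2 _ ⟨(E v).2, i, by simpa using hx⟩
  rintro ⟨w, i'⟩
  have h7 := a4 ((E w).1 - (E v).1).val _ h6 (E w).2 i'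
  have h8 : ((E w).1 - (E v).1).val • (1 : Fin s) = (E w).1 - (E v).1 := by
    apply Fin.ext
    rw [nsmul_val, Nat.mod_eq_of_lt (Fin.isLt _)]
  rw [h8, add_sub_cancel] at h7
  simpa using h7

/-- The relabelings. -/
def hh (p : Equiv.Perm (Fin (2 * s)) × (Fin (2 * s) → Fin 3)) : Equiv.Perm (KX s) :=
  ⟨fun d => (p.1 d.1, d.2 + p.2 d.1), fun d => (p.1.symm d.1, d.2 - p.2 (p.1.symm d.1)),
    fun d => by simp, fun d => by simp⟩

lemma hh_apply (p : Equiv.Perm (Fin (2 * s)) × (Fin (2 * s) → Fin 3)) (d : KX s) :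
    hh p d = (p.1 d.1, d.2 + p.2 d.1) := rfl

lemma hh_comm (p : Equiv.Perm (Fin (2 * s)) × (Fin (2 * s) → Fin 3)) : hh p * s0 s = s0 s * hh p := by
  refine Equiv.ext fun d => ?_
  rw [Equiv.Perm.mul_apply, Equiv.Perm.mul_apply, hh_apply, s0_apply, s0_apply, hh_apply]
  simp only
  rw [add_right_comm]

lemma hh_inj : Function.Injective (hh (s := s)) := by
  intro p q h
  have h1 : ∀ v : Fin (2 * s), p.1 v = q.1 v ∧ p.2 v = q.2 v := by
    intro v
    have := congrArg (fun π : Equiv.Perm (KX s) => π (v, 0)) h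
    simp only [hh_apply, zero_add, Prod.mk.injEq] at this
    exact this
  exact Prod.ext (Equiv.ext fun v => (h1 v).1) (funext fun v => (h1 v).2)

/-- The relabeled necklace. -/
def kh (p : Equiv.Perm (Fin (2 * s)) × (Fin (2 * s) → Fin 3)) : Equiv.Perm (KX s) :=
  hh p * kk E * (hh p)⁻¹

lemma kh_pair (p : Equiv.Perm (Fin (2 * s)) × (Fin (2 * s) → Fin 3)) : IsPair (kh E p) := by
  intro x
  unfold kh
  constructor
  · simp only [Equiv.Perm.mul_apply, ia, (kk_pair E _).1,
      ai]
  · intro h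
    rw [Equiv.Perm.mul_apply, Equiv.Perm.mul_apply] at h
    have h1 : kk E ((hh p)⁻¹ x) = (hh p)⁻¹ x := by
      rw [Equiv.Perm.eq_inv_iff_eq]
      exact h
    exact (kk_pair E _).2 h1

lemma kh_emb (p : Equiv.Perm (Fin (2 * s)) × (Fin (2 * s) → Fin 3)) : EmbX 0 (kh E p) := by
  refine ⟨s0 s, s0_rot, ?_⟩
  have h1 : s + 2 ≤ orb (s0 s * kh E p) := by
    have h2 := orb_ge (s0 s * kh E p) (fun x => fc E ((hh p)⁻¹ x)) (fun x => by
      have h3 : s0 s * kh E p = hh p * (s0 s * kk E) * (hh p)⁻¹ := by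
        unfold kh
        rw [← mul_assoc, ← mul_assoc, ← hh_comm, ← mul_assoc]
      show fc E ((hh p)⁻¹ ((s0 s * kh E p) x)) = _
      rw [h3, Equiv.Perm.mul_apply, Equiv.Perm.mul_apply, ia, fc_inv]) (by
      intro y
      obtain ⟨d, hd⟩ := fc_surj E y
      exact ⟨hh p d, by simp [hd]⟩)
    have h4 : Nat.card (Option (Option (Fin s))) = s + 2 := by simp
    rw [h4] at h2
    exact h2
  have h2 : cmq (kh E p) Prod.fst ≤ 1 := by
    unfold cmq
    have : Subsingleton (Quot (fun a b : KX s => b = kh E p a ∨ Prod.fst b = Prod.fst a)) := by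
      constructor
      intro q q'
      obtain ⟨x, rfl⟩ := Quot.exists_rep q
      obtain ⟨y, rfl⟩ := Quot.exists_rep q'
      have key := conn E (fun z => Quot.mk (fun a b : KX s => b = kh E p a ∨ Prod.fst b = Prod.fst a) (hh p z) =
        Quot.mk (fun a b : KX s => b = kh E p a ∨ Prod.fst b = Prod.fst a) x) (by
          intro z hz
          rw [← hz]
          symm
          apply Quot.sound
          left
          unfold kh
          rw [Equiv.Perm.mul_apply, Equiv.Perm.mul_apply, ia]) (by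
          intro z w hzw hz
          rw [← hz]
          symm
          apply Quot.sound
          right
          rw [hh_apply, hh_apply]
          show p.1 w.1 = p.1 z.1
          rw [hzw]) ⟨(hh p)⁻¹ x, by simp⟩ ((hh p)⁻¹ y)
      simp only [ai] at key
      exact key.symm
    exact Finite.card_le_one_iff_subsingleton.2 this
  omega

/-- Many planar kernels. -/
theorem card_ge : (2 * s).factorial * 9 ^ s ≤
    Nat.card {κ : Equiv.Perm (KX s) // IsPair κ ∧ EmbX 0 κ} * (6 * s) := by
  classical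
  have E : Fin (2 * s) ≃ Fin s × Bool := Fintype.equivOfCardEq (by simp; ring)
  let d0 : KX s := (E.symm (0, true), 0)
  have hinj : Function.Injective (fun p : Equiv.Perm (Fin (2 * s)) × (Fin (2 * s) → Fin 3) =>
      ((⟨kh E p, kh_pair E p, kh_emb E p⟩, hh p d0) :
        {κ : Equiv.Perm (KX s) // IsPair κ ∧ EmbX 0 κ} × KX s)) := by
    intro p q h
    simp only [Prod.mk.injEq, Subtype.mk.injEq] at h
    obtain ⟨h1, h2⟩ := h
    apply hh_inj
    have hk : ∀ x, ((hh q)⁻¹ * hh p) x = x := by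
      apply conn E (fun x => ((hh q)⁻¹ * hh p) x = x)
      · intro x hx
        have h3 : (hh q)⁻¹ * hh p * kk E = kk E * ((hh q)⁻¹ * hh p) := by
          unfold kh at h1
          have h4 : hh p * kk E = hh q * kk E * (hh q)⁻¹ * hh p := by
            rw [← h1]
            simp [mul_assoc]
          rw [mul_assoc, h4]
          simp [mul_assoc]
        calc ((hh q)⁻¹ * hh p) (kk E x) = ((hh q)⁻¹ * hh p * kk E) x := rfl
          _ = kk E (((hh q)⁻¹ * hh p) x) := by rw [h3]; rfl
          _ = kk E x := by rw [hx]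
      · intro x y hxy hx
        have h3 : Commute ((hh q)⁻¹ * hh p) (s0 s) := by
          have c1 : Commute (hh p) (s0 s) := hh_comm p
          have c2 : Commute (hh q) (s0 s) := hh_comm q
          exact c2.inv_left.mul_left c1
        obtain ⟨n, hn⟩ := s0_pow hxy
        have h4 := h3.pow_right n
        calc ((hh q)⁻¹ * hh p) y = ((hh q)⁻¹ * hh p * s0 s ^ n) x := by rw [← hn]; rfl
          _ = (s0 s ^ n) (((hh q)⁻¹ * hh p) x) := by rw [h4.eq]; rfl
          _ = y := by rw [hx, hn]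
      · refine ⟨d0, ?_⟩
        rw [Equiv.Perm.mul_apply, h2, ia]
    refine Equiv.ext fun x => ?_
    have h5 := hk x
    rw [Equiv.Perm.mul_apply, Equiv.Perm.inv_eq_iff_eq] at h5
    exact h5
  have h := Nat.card_le_card_of_injective _ hinj
  rw [Nat.card_prod, Nat.card_prod, Nat.card_eq_fintype_card (α := Equiv.Perm (Fin (2 * s))),
    Fintype.card_perm, Fintype.card_fin, Nat.card_eq_fintype_card (α := Fin (2 * s) → Fin 3),
    Fintype.card_fun, Fintype.card_fin, Fintype.card_fin, Nat.card_eq_fintype_card (α := KX s)] at h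
  have hc : Fintype.card (KX s) = 6 * s := by simp [KX]; ring
  rw [hc, pow_mul, show (3 : ℕ) ^ 2 = 9 by norm_num] at h
  exact h

end Pool.Agent.Helper96.AX.Neck

namespace Pool.Agent.Helper96.AX

open Finset Pool.Agent.Helper26.AF Pool.Agent.Helper26.AL

/-- The lower bound for `eg`. -/
theorem eg_ge (g : ℕ) {s : ℕ} (hs : 1 ≤ s) : 1 / (6 * s * 4 ^ s) ≤ eg g s := by
  have : NeZero s := ⟨by omega⟩
  have h1 := Neck.card_ge (s := s)
  have h2 : Nat.card {κ : Equiv.Perm (KX s) // IsPair κ ∧ EmbX 0 κ} ≤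
      Nat.card {κ : Equiv.Perm (KX s) // IsPair κ ∧ EmbX g κ} := by
    refine Nat.card_le_card_of_injective (fun κ => ⟨κ.1, κ.2.1, ?_⟩) (fun κ κ' h => by
      simp only [Subtype.mk.injEq] at h
      exact Subtype.ext h)
    obtain ⟨σ, h3, h4⟩ := κ.2.2
    exact ⟨σ, h3, by omega⟩
  have h3 : (2 * s).factorial * 9 ^ s ≤ Nat.card {κ : Equiv.Perm (KX s) // IsPair κ ∧ EmbX g κ} * (6 * s) :=
    h1.trans (Nat.mul_le_mul_right _ h2)
  have h4 : ((2 * s).factorial : ℝ) * 9 ^ s ≤
      (Nat.card {κ : Equiv.Perm (KX s) // IsPair κ ∧ EmbX g κ} : ℝ) * (6 * s) := by exact_mod_cast h3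
  unfold eg
  have hs' : (0 : ℝ) < s := by exact_mod_cast hs
  rw [div_le_div_iff₀ (by positivity) (by positivity), one_mul]
  calc ((2 * s).factorial : ℝ) * 36 ^ s = ((2 * s).factorial * 9 ^ s) * 4 ^ s := by
        rw [show (36 : ℝ) = 9 * 4 by norm_num, mul_pow]; ring
    _ ≤ _ := by
        rw [← mul_assoc]
        exact mul_le_mul_of_nonneg_right h4 (by positivity)

end Pool.Agent.Helper96.AX
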