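import Mathlib
import Pool.Agent.Helper96.AX.Base
import Pool.Agent.Helper96.AX.Neck
import Pool.Agent.Helper96.AW.MON

/-! Project AX: the lower bound for the right tail. -/

namespace Pool.Agent.Helper96.AX.Low

open Finset Filter Topology Pool.Agent.Helper26.AF Pool.Agent.Helper26.AL MeasureTheory
open Pool.Agent.Helper96.AW Pool.Agent.Helper96.AX

lemma ww_mono {s : ℕ} (hs : 1 ≤ s) {x y : ℝ} (hx : 0 < x) (h : x ≤ y) : ww s x ≤ ww s y := by
  have hs' : (1 : ℝ) ≤ s := by exact_mod_cast hs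
  unfold ww
  refine div_le_div_of_nonneg_right ?_ (AC.cs_pos hs).le
  exact Real.rpow_le_rpow hx.le h (by linarith)

lemma PP_ge : ∃ c : ℝ, 0 < c ∧ ∀ (l : ℝ) (s : ℕ), 0 < l → 1 ≤ s →
    c * (ww s l * Real.exp (-(l ^ 3 / 6))) ≤ PP l s := by
  obtain ⟨M, hM, h⟩ := facts.PPl
  refine ⟨1 / 2 * Real.exp (-((M + 1) ^ 3 / 6)), by positivity, fun l s hl hs => ?_⟩
  refine le_trans ?_ (h l s hs)
  rw [max_eq_right (by positivity), mul_assoc]
  refine mul_le_mul_of_nonneg_left ?_ (by norm_num)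
  have hint : IntegrableOn (fun x => ww s x * Real.exp (-(FF x l))) (Set.Ioi (l + M)) :=
    (AC.integ l hs).mono_set (Set.Ioi_subset_Ioi (by positivity))
  have h1 : ∫ x in Set.Ioc (l + M) (l + M + 1), ww s x * Real.exp (-(FF x l)) ≤
      ∫ x in Set.Ioi (l + M), ww s x * Real.exp (-(FF x l)) := by
    refine setIntegral_mono_set hint ?_ Set.Ioc_subset_Ioi_self.eventuallyLE
    rw [Filter.EventuallyLE, ae_restrict_iff' measurableSet_Ioi]
    refine Eventually.of_forall fun x hx => ?_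
    have hx' : l + M < x := hx
    show 0 ≤ ww s x * Real.exp (-(FF x l))
    exact mul_nonneg (AC.ww_nonneg hs (by linarith)) (Real.exp_nonneg _)
  refine le_trans ?_ h1
  have h2 : ∫ _x in Set.Ioc (l + M) (l + M + 1), (ww s l * Real.exp (-(l ^ 3 / 6))) *
      Real.exp (-((M + 1) ^ 3 / 6)) ≤ ∫ x in Set.Ioc (l + M) (l + M + 1), ww s x * Real.exp (-(FF x l)) := by
    refine setIntegral_mono_on ?_ (hint.mono_set Set.Ioc_subset_Ioi_self) measurableSet_Ioc fun x hx => ?_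
    · exact integrableOn_const (by simp)
    · have hx1 : l + M < x := hx.1
      have hx2 : x ≤ l + M + 1 := hx.2
      have h3 : ww s l ≤ ww s x := ww_mono hs hl (by linarith)
      have h4 : FF x l ≤ l ^ 3 / 6 + (M + 1) ^ 3 / 6 := by
        unfold FF
        have : (x - l) ^ 3 ≤ (M + 1) ^ 3 := pow_le_pow_left₀ (by linarith) (by linarith) 3
        linarith
      have h5 : Real.exp (-(l ^ 3 / 6)) * Real.exp (-((M + 1) ^ 3 / 6)) ≤ Real.exp (-(FF x l)) := by
        rw [← Real.exp_add]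
        exact Real.exp_le_exp.2 (by linarith)
      rw [mul_assoc]
      exact mul_le_mul h3 h5 (by positivity) (AC.ww_nonneg hs (by linarith))
  rw [setIntegral_const] at h2
  simp only [Real.volume_real_Ioc, smul_eq_mul] at h2
  rw [show l + M + 1 - (l + M) = 1 by ring, max_eq_left (by norm_num : (0 : ℝ) ≤ 1), one_mul] at h2
  linarith

lemma ww_ge {t : ℕ} (ht : 1 ≤ t) {l : ℝ} (hl : 48 * (t : ℝ) ≤ l) : 512 ^ t / 16 ≤ ww (2 * t) l := by
  have ht' : (1 : ℝ) ≤ t := by exact_mod_cast ht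
  have hl0 : 0 < l := by linarith
  obtain ⟨n, hn⟩ : ∃ n : ℕ, 3 * t = n + 1 := ⟨3 * t - 1, by omega⟩
  have hn' : 3 * (t : ℝ) = n + 1 := by exact_mod_cast hn
  have e1 : 3 * ((2 * t : ℕ) : ℝ) / 2 = n + 1 := by
    push_cast
    linarith
  unfold ww
  rw [e1, Real.Gamma_nat_eq_factorial, add_sub_cancel_right, Real.rpow_natCast,
    show (n : ℝ) + 1 = ((n + 1 : ℕ) : ℝ) by push_cast; ring, Real.rpow_natCast, ← hn, pow_mul,
    show (2 : ℝ) ^ 3 = 8 by norm_num, div_le_div_iff₀ (by norm_num) (by positivity)]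
  have h1 : (n.factorial : ℝ) ≤ (3 * (t : ℝ)) ^ n := by
    have h2 : n.factorial ≤ n ^ n := Nat.factorial_le_pow n
    have h3 : (n.factorial : ℝ) ≤ (n : ℝ) ^ n := by exact_mod_cast h2
    refine h3.trans (pow_le_pow_left₀ (by positivity) (by linarith) n)
  have h2 : (16 * (3 * (t : ℝ))) ^ n ≤ l ^ n := pow_le_pow_left₀ (by positivity) (by linarith) n
  have e3 : (512 : ℝ) ^ t * 8 ^ t = 16 * 16 ^ n := by
    rw [← mul_pow, show (512 : ℝ) * 8 = 16 ^ 3 by norm_num, ← pow_mul, hn, pow_succ]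
    ring
  calc (512 : ℝ) ^ t * (8 ^ t * n.factorial) = (512 ^ t * 8 ^ t) * n.factorial := by ring
    _ = 16 * 16 ^ n * n.factorial := by rw [e3]
    _ ≤ 16 * 16 ^ n * (3 * (t : ℝ)) ^ n := by gcongr
    _ = (16 * (3 * (t : ℝ))) ^ n * 16 := by rw [mul_pow (16 : ℝ)]; ring
    _ ≤ _ := mul_le_mul_of_nonneg_right h2 (by norm_num)

/-- The lower bound for large `l`. -/
lemma lower1 : ∃ B : ℝ, ∀ (g : ℕ) (l : ℝ), 48 ≤ l → Real.exp (-(l ^ 3 / 6) + l / 20 - B) ≤ pg g l := by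
  obtain ⟨c, hc, hP⟩ := PP_ge
  refine ⟨277 / 100 - Real.log (c / 192), fun g l hl => ?_⟩
  set t : ℕ := ⌊l / 48⌋₊ with ht
  have ht1 : (t : ℝ) ≤ l / 48 := Nat.floor_le (by positivity)
  have ht2 : l / 48 < t + 1 := Nat.lt_floor_add_one _
  have ht3 : 1 ≤ t := by
    rw [ht]
    apply Nat.le_floor
    push_cast
    rw [le_div_iff₀ (by norm_num)]
    linarith
  have ht4 : (1 : ℝ) ≤ t := by exact_mod_cast ht3
  have hsum : Summable (fun s : ℕ => eg g s * PP l s) := by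
    refine Summable.of_nonneg_of_le (fun s => mul_nonneg (facts.eg_le g s).1 (facts.PPb l s).1)
      (fun s => ?_) (facts.sumE l).1
    rw [abs_of_nonneg (facts.PPb l s).1]
    exact mul_le_mul_of_nonneg_right (facts.eg_le g s).2 (facts.PPb l s).1
  have h1 : eg g (2 * t) * PP l (2 * t) ≤ pg g l := by
    rw [facts.sumG]
    exact hsum.le_tsum _ (fun s _ => mul_nonneg (facts.eg_le g s).1 (facts.PPb l s).1)
  have h2 := hP l (2 * t) (by linarith) (by omega)
  have h3 := ww_ge ht3 (l := l) (by linarith)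
  have h4 := eg_ge g (s := 2 * t) (by omega)
  have h5 : 1 / (6 * ((2 * t : ℕ) : ℝ) * 4 ^ (2 * t)) = 1 / (12 * t * 16 ^ t) := by
    rw [pow_mul]
    push_cast
    norm_num
    ring
  rw [h5] at h4
  have h6 : (1 / (12 * t * 16 ^ t)) * (c * ((512 : ℝ) ^ t / 16 * Real.exp (-(l ^ 3 / 6)))) ≤ pg g l := by
    refine le_trans ?_ h1
    refine mul_le_mul h4 (le_trans ?_ h2) (by positivity) (facts.eg_le g _).1
    gcongr
  have h7 : (t : ℝ) ≤ 2 ^ t := by exact_mod_cast (Nat.lt_two_pow_self (n := t)).le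
  have h8 : c / 192 * 16 ^ t * Real.exp (-(l ^ 3 / 6)) ≤
      (1 / (12 * t * 16 ^ t)) * (c * ((512 : ℝ) ^ t / 16 * Real.exp (-(l ^ 3 / 6)))) := by
    have e : (1 / (12 * t * 16 ^ t)) * (c * ((512 : ℝ) ^ t / 16 * Real.exp (-(l ^ 3 / 6)))) =
        c / 192 * Real.exp (-(l ^ 3 / 6)) * (512 ^ t / 16 ^ t / t) := by
      field_simp
      norm_num
    rw [e, ← div_pow, show (512 : ℝ) / 16 = 16 * 2 by norm_num, mul_pow]
    have h9 : (16 : ℝ) ^ t ≤ 16 ^ t * 2 ^ t / t := by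
      rw [le_div_iff₀ (by positivity)]
      gcongr
    calc c / 192 * 16 ^ t * Real.exp (-(l ^ 3 / 6)) = c / 192 * Real.exp (-(l ^ 3 / 6)) * 16 ^ t := by ring
      _ ≤ _ := mul_le_mul_of_nonneg_left h9 (by positivity)
  refine le_trans ?_ (h8.trans h6)
  have h10 : (16 : ℝ) ^ t = Real.exp (4 * Real.log 2 * t) := by
    rw [show (16 : ℝ) = Real.exp (4 * Real.log 2) by
      rw [mul_comm, Real.exp_mul, Real.exp_log (by norm_num)]; norm_num, ← Real.exp_nat_mul]
    congr 1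
    ring
  have h11 : c / 192 = Real.exp (Real.log (c / 192)) := (Real.exp_log (by positivity)).symm
  rw [h10, h11, ← Real.exp_add, ← Real.exp_add, Real.log_exp]
  refine Real.exp_le_exp.2 ?_
  have h12 := Real.log_two_gt_d9
  have h13 : 277 / 100 * (l / 48 - 1) ≤ 4 * Real.log 2 * t := by
    have a1 : l / 48 - 1 ≤ t := by linarith
    have a2 : 0 ≤ l / 48 - 1 := by linarith
    have a3 : (277 : ℝ) / 100 ≤ 4 * Real.log 2 := by linarith
    exact mul_le_mul a3 a1 a2 (by positivity)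
  linarith

/-- The lower bound. -/
theorem lower : ∃ B : ℝ, ∀ (g : ℕ) (l : ℝ), 0 ≤ l → Real.exp (-(l ^ 3 / 6) + l / 20 - B) ≤ pg g l := by
  obtain ⟨B, hB⟩ := lower1
  refine ⟨B + 48 ^ 3 / 6, fun g l hl => ?_⟩
  rcases le_or_gt 48 l with h | h
  · refine le_trans (Real.exp_le_exp.2 ?_) (hB g l h)
    linarith
  · refine le_trans (Real.exp_le_exp.2 ?_) ((hB g 48 le_rfl).trans (MON.anti g h.le))
    have : 0 ≤ l ^ 3 := by positivity
    linarith

end Pool.Agent.Helper96.AX.Low
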