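import Mathlib
import Pool.Agent.Helper96.AX.Base
import Pool.Agent.Helper96.AX.Cnt

/-! Project AX: the upper bound for the right tail. -/

namespace Pool.Agent.Helper96.AX.Up

open Finset Filter Topology Pool.Agent.Helper26.AF Pool.Agent.Helper26.AL MeasureTheory
open Pool.Agent.Helper96.AW Pool.Agent.Helper96.AX

theorem bAJ : ∃ C : ℝ, 0 < C ∧ ∀ l : ℝ, 0 ≤ l → PP l 0 ≤ C * ((1 + l) * Real.exp (-(l ^ 3 / 6))) ∧
    ∀ s : ℕ, 1 ≤ s → PP l s ≤ C * ((1 + l) * Real.exp (-(l ^ 3 / 6)) *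
      ∫ x in Set.Ioi (0 : ℝ), ww s x * Real.exp (-((max (x - l) 0) ^ 3 / 6))) := by
  have hTC : S_TC := Pool.Agent.Helper38.AW.TC.t
  have hTB2 : S_TB2 := Pool.Agent.Helper38.AW.TB2.t
  have hTE : S_TE := Pool.Agent.Helper41.AW.TE.t
  have hTF := Pool.Agent.Helper24.AW.TF.t (Pool.Agent.Helper51.AW.TD1.t hTC) hTE
  have hAS := Pool.Agent.Helper22.AW.AS.t Pool.Agent.Helper90.AW.TB1.t hTB2
  have hAV := Pool.Agent.Helper45.AW.AV.t Pool.Agent.Helper22.AW.TG.t Pool.Agent.Helper12.AW.TA.t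
    Pool.Agent.Helper22.AW.AR.t Pool.Agent.Helper22.AW.AT.t Pool.Agent.Helper22.AW.AU.t hTF hAS
  have hTZ := TZ.t hAV (fun l => (bNC l).2)
  exact (AJ.t AC.t bAH bAI hTZ).2.2

/-- The density of the Gamma distribution is at most one. -/
lemma dens {a y : ℝ} (ha : 1 ≤ a) (hy : 0 < y) : y ^ (a - 1) ≤ Real.Gamma a * Real.exp y := by
  have h0 : 0 < a := by linarith
  have h1 : ∫ t in Set.Ioi y, Real.exp (-t) * y ^ (a - 1) ≤ ∫ t in Set.Ioi y, Real.exp (-t) * t ^ (a - 1) := by
    refine setIntegral_mono_on ?_ ?_ measurableSet_Ioi fun t ht => ?_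
    · exact (integrableOn_exp_neg_Ioi y).mul_const _
    · exact (Real.GammaIntegral_convergent h0).mono_set (Set.Ioi_subset_Ioi hy.le)
    · have ht' : y < t := ht
      exact mul_le_mul_of_nonneg_left (Real.rpow_le_rpow hy.le ht'.le (by linarith)) (Real.exp_nonneg _)
  have h2 : ∫ t in Set.Ioi y, Real.exp (-t) * t ^ (a - 1) ≤ Real.Gamma a := by
    rw [Real.Gamma_eq_integral h0]
    refine setIntegral_mono_set (Real.GammaIntegral_convergent h0) ?_
      (Set.Ioi_subset_Ioi hy.le).eventuallyLE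
    rw [Filter.EventuallyLE, ae_restrict_iff' measurableSet_Ioi]
    exact Eventually.of_forall fun t ht => by
      have ht' : (0 : ℝ) < t := ht
      show 0 ≤ Real.exp (-t) * t ^ (a - 1)
      positivity
  rw [integral_mul_const, integral_exp_neg_Ioi] at h1
  have h3 : Real.exp (-y) * y ^ (a - 1) ≤ Real.Gamma a := h1.trans h2
  calc y ^ (a - 1) = (Real.exp (-y) * y ^ (a - 1)) * Real.exp y := by
        rw [mul_right_comm, ← Real.exp_add]
        simp
    _ ≤ _ := mul_le_mul_of_nonneg_right h3 (Real.exp_nonneg _)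

lemma term {A : ℝ} (hA : 1 ≤ A) {s : ℕ} (hs : 1 ≤ s) {x : ℝ} (hx : 0 < x) :
    A ^ s * ww s x ≤ 2 * A * (1 / 2) ^ s * Real.exp (2 * A * x) := by
  have hs' : (1 : ℝ) ≤ s := by exact_mod_cast hs
  set a : ℝ := 3 * (s : ℝ) / 2 with ha
  have ha1 : 1 ≤ a := by rw [ha]; linarith
  set B : ℝ := 2 * A with hB
  have hB1 : 1 ≤ B := by rw [hB]; linarith
  have hB0 : 0 < B := by linarith
  have hG := Real.Gamma_pos_of_pos (show 0 < a by linarith)
  have h1 := dens ha1 (show 0 < B * x by positivity)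
  rw [Real.mul_rpow hB0.le hx.le] at h1
  have h2 : x ^ (a - 1) ≤ B ^ (1 - a) * (Real.Gamma a * Real.exp (B * x)) := by
    calc x ^ (a - 1) = B ^ (1 - a) * (B ^ (a - 1) * x ^ (a - 1)) := by
          rw [← mul_assoc, ← Real.rpow_add hB0]
          simp
      _ ≤ _ := mul_le_mul_of_nonneg_left h1 (by positivity)
  have h3 : ww s x ≤ B ^ (1 - a) * Real.exp (B * x) := by
    unfold ww
    rw [← ha, div_le_iff₀ (by positivity)]
    have h2a : (1 : ℝ) ≤ 2 ^ a := Real.one_le_rpow (by norm_num) (by linarith)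
    calc x ^ (a - 1) ≤ B ^ (1 - a) * (Real.Gamma a * Real.exp (B * x)) := h2
      _ = B ^ (1 - a) * Real.exp (B * x) * (1 * Real.Gamma a) := by ring
      _ ≤ _ := by gcongr
  have h4 : B ^ (1 - a) ≤ B * (B⁻¹) ^ s := by
    have e : B * (B⁻¹) ^ s = B ^ (1 - (s : ℝ)) := by
      rw [Real.rpow_sub hB0, Real.rpow_one, Real.rpow_natCast, inv_pow, div_eq_mul_inv]
    rw [e]
    exact Real.rpow_le_rpow_of_exponent_le hB1 (by rw [ha]; linarith)
  calc A ^ s * ww s x ≤ A ^ s * (B ^ (1 - a) * Real.exp (B * x)) := by gcongr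
    _ ≤ A ^ s * (B * (B⁻¹) ^ s * Real.exp (B * x)) := by gcongr
    _ = B * (A * B⁻¹) ^ s * Real.exp (B * x) := by rw [mul_pow]; ring
    _ = _ := by
      have : A * B⁻¹ = 1 / 2 := by
        rw [hB]
        field_simp
      rw [this]

lemma expo {b m : ℝ} (hb : 1 ≤ b) (hm : 0 ≤ m) : b * m - m ^ 3 / 6 ≤ b * (6 * b + 1) := by
  rcases le_or_gt m (6 * b + 1) with h | h
  · have : 0 ≤ m ^ 3 := by positivity
    nlinarith
  · have h1 : 6 * b ≤ m := by linarith
    have h2 : 6 * b * m ≤ m * m := mul_le_mul_of_nonneg_right h1 hm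
    have h3 : (1 : ℝ) ≤ m := by linarith
    have h4 : 6 * b * m ≤ m ^ 3 := by
      have : m * m ≤ m * m * m := le_mul_of_one_le_right (by positivity) h3
      nlinarith
    have h5 : 0 ≤ b * (6 * b + 1) := by positivity
    linarith

lemma inte {A : ℝ} (hA : 1 ≤ A) {s : ℕ} (hs : 1 ≤ s) {l : ℝ} :
    A ^ s * ∫ x in Set.Ioi (0 : ℝ), ww s x * Real.exp (-((max (x - l) 0) ^ 3 / 6)) ≤
      2 * A * (1 / 2) ^ s * Real.exp ((2 * A + 1) * l + (2 * A + 1) * (6 * (2 * A + 1) + 1)) := by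
  set b : ℝ := 2 * A + 1 with hb
  have hb1 : 1 ≤ b := by rw [hb]; linarith
  rw [← integral_const_mul]
  have h1 : ∫ x in Set.Ioi (0 : ℝ), A ^ s * (ww s x * Real.exp (-((max (x - l) 0) ^ 3 / 6))) ≤
      ∫ x in Set.Ioi (0 : ℝ), 2 * A * (1 / 2) ^ s * Real.exp (b * l + b * (6 * b + 1)) * Real.exp (-x) := by
    refine integral_mono_of_nonneg ?_ ((integrableOn_exp_neg_Ioi 0).const_mul _) ?_
    · rw [Filter.EventuallyLE, ae_restrict_iff' measurableSet_Ioi]
      refine Eventually.of_forall fun x hx => ?_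
      have hx' : (0 : ℝ) < x := hx
      have := AC.ww_nonneg hs hx'.le
      show 0 ≤ A ^ s * (ww s x * Real.exp (-((max (x - l) 0) ^ 3 / 6)))
      positivity
    · rw [Filter.EventuallyLE, ae_restrict_iff' measurableSet_Ioi]
      refine Eventually.of_forall fun x hx => ?_
      have hx' : (0 : ℝ) < x := hx
      have h2 := term hA hs hx'
      set m : ℝ := max (x - l) 0 with hm
      have hm0 : 0 ≤ m := le_max_right _ _
      have hxm : x ≤ l + m := by
        have := le_max_left (x - l) 0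
        rw [← hm] at this
        linarith
      have h3 := expo hb1 hm0
      have h4 : 2 * A * x - m ^ 3 / 6 ≤ b * l + b * (6 * b + 1) - x := by
        have : b * x ≤ b * (l + m) := mul_le_mul_of_nonneg_left hxm (by linarith)
        rw [hb] at this ⊢
        rw [hb] at h3
        linarith
      show A ^ s * (ww s x * Real.exp (-(m ^ 3 / 6))) ≤
        2 * A * (1 / 2) ^ s * Real.exp (b * l + b * (6 * b + 1)) * Real.exp (-x)
      calc A ^ s * (ww s x * Real.exp (-(m ^ 3 / 6))) = (A ^ s * ww s x) * Real.exp (-(m ^ 3 / 6)) := by ring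
        _ ≤ (2 * A * (1 / 2) ^ s * Real.exp (2 * A * x)) * Real.exp (-(m ^ 3 / 6)) :=
            mul_le_mul_of_nonneg_right h2 (Real.exp_nonneg _)
        _ = 2 * A * (1 / 2) ^ s * Real.exp (2 * A * x - m ^ 3 / 6) := by
            rw [mul_assoc (2 * A * (1 / 2) ^ s), ← Real.exp_add, sub_eq_add_neg]
        _ ≤ 2 * A * (1 / 2) ^ s * Real.exp (b * l + b * (6 * b + 1) - x) := by gcongr
        _ = _ := by rw [sub_eq_add_neg, Real.exp_add]; ring
  refine h1.trans (le_of_eq ?_)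
  rw [integral_const_mul, integral_exp_neg_Ioi]
  simp

/-- The upper bound. -/
theorem upper : ∃ B : ℝ, 0 < B ∧ ∀ (g : ℕ) (l : ℝ), 0 ≤ l →
    pg g l ≤ ((2 * g).factorial : ℝ) * Real.exp (-(l ^ 3 / 6) + B * l + B) := by
  obtain ⟨C, hC, hP⟩ := bAJ
  obtain ⟨A, hA, hE⟩ := Cnt.eg_le
  set b : ℝ := 2 * A + 1 with hb
  set K : ℝ := b * (6 * b + 1) with hK
  set C' : ℝ := C * (1 + 2 * A * Real.exp K) with hC'
  have hC'0 : 0 < C' := by positivity
  refine ⟨max (b + 1) (Real.log C'), lt_max_of_lt_left (by positivity), fun g l hl => ?_⟩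
  set B : ℝ := max (b + 1) (Real.log C') with hB
  have hB1 : b + 1 ≤ B := le_max_left _ _
  have hB2 : Real.log C' ≤ B := le_max_right _ _
  set F : ℝ := ((2 * g).factorial : ℝ) with hF
  have hF1 : 1 ≤ F := by
    have : 1 ≤ (2 * g).factorial := Nat.factorial_pos _
    rw [hF]
    exact_mod_cast this
  obtain ⟨h0, h1⟩ := hP l hl
  set W : ℝ := C * ((1 + l) * Real.exp (-(l ^ 3 / 6))) with hW
  have hW0 : 0 ≤ W := by positivity
  have hsum : Summable (fun s : ℕ => eg g s * PP l s) := by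
    refine Summable.of_nonneg_of_le (fun s => mul_nonneg (facts.eg_le g s).1 (facts.PPb l s).1)
      (fun s => ?_) (facts.sumE l).1
    rw [abs_of_nonneg (facts.PPb l s).1]
    exact mul_le_mul_of_nonneg_right (facts.eg_le g s).2 (facts.PPb l s).1
  have hterm : ∀ s : ℕ, eg g (s + 1) * PP l (s + 1) ≤
      W * F * (2 * A) * Real.exp (b * l + K) * (1 / 2) * (1 / 2) ^ s := by
    intro s
    set I : ℝ := ∫ x in Set.Ioi (0 : ℝ), ww (s + 1) x * Real.exp (-((max (x - l) 0) ^ 3 / 6)) with hI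
    have hI0 : 0 ≤ I := by
      rw [hI]
      refine setIntegral_nonneg measurableSet_Ioi fun x hx => ?_
      have hx' : (0 : ℝ) < x := hx
      exact mul_nonneg (AC.ww_nonneg (by omega) hx'.le) (Real.exp_nonneg _)
    have h2 := inte hA (s := s + 1) (by omega) (l := l)
    rw [← hI, ← hb, ← hK] at h2
    have h3 := h1 (s + 1) (by omega)
    rw [← hI] at h3
    have h4 := hE g (s + 1) (by omega)
    rw [← hF] at h4
    have hA0 : 0 ≤ A := by linarith
    calc eg g (s + 1) * PP l (s + 1) ≤ (F * A ^ (s + 1)) * (C * ((1 + l) * Real.exp (-(l ^ 3 / 6)) * I)) :=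
          mul_le_mul h4 h3 (facts.PPb l _).1 (by positivity)
      _ = W * F * (A ^ (s + 1) * I) := by rw [hW]; ring
      _ ≤ W * F * (2 * A * (1 / 2) ^ (s + 1) * Real.exp (b * l + K)) := by gcongr
      _ = _ := by rw [pow_succ]; ring
  have hgeo : Summable (fun s : ℕ => W * F * (2 * A) * Real.exp (b * l + K) * (1 / 2) * (1 / 2 : ℝ) ^ s) :=
    (summable_geometric_of_lt_one (by norm_num) (by norm_num)).mul_left _
  have h5 : pg g l ≤ W + W * F * (2 * A) * Real.exp (b * l + K) := by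
    rw [facts.sumG, ← hsum.sum_add_tsum_nat_add 1]
    have e0 : ∑ i ∈ range 1, eg g i * PP l i = eg g 0 * PP l 0 := by simp
    rw [e0]
    have h6 : eg g 0 * PP l 0 ≤ W := by
      have h7 : eg g 0 ≤ 1 := (facts.eg_le g 0).2.trans (le_of_eq (by unfold ee; simp))
      have h8 : eg g 0 * PP l 0 ≤ 1 * PP l 0 := mul_le_mul_of_nonneg_right h7 (facts.PPb l 0).1
      linarith
    have h9 := ((summable_nat_add_iff 1).2 hsum).tsum_le_tsum hterm hgeo
    rw [tsum_mul_left, tsum_geometric_two] at h9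
    linarith
  have h6 : W + W * F * (2 * A) * Real.exp (b * l + K) ≤
      F * (C' * ((1 + l) * Real.exp (-(l ^ 3 / 6)) * Real.exp (b * l))) := by
    have h7 : 1 ≤ Real.exp (b * l) := Real.one_le_exp (by positivity)
    have h8 : W ≤ F * W * Real.exp (b * l) := by
      calc W = 1 * W * 1 := by ring
        _ ≤ F * W * Real.exp (b * l) := by gcongr
    calc W + W * F * (2 * A) * Real.exp (b * l + K) ≤
          F * W * Real.exp (b * l) + W * F * (2 * A) * Real.exp (b * l + K) := by linarith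
      _ = _ := by rw [Real.exp_add, hW, hC']; ring
  have h7 : C' ≤ Real.exp B := by
    rw [← Real.exp_log hC'0]
    exact Real.exp_le_exp.2 hB2
  have h8 : 1 + l ≤ Real.exp l := by
    have := Real.add_one_le_exp l
    linarith
  calc pg g l ≤ F * (C' * ((1 + l) * Real.exp (-(l ^ 3 / 6)) * Real.exp (b * l))) := h5.trans h6
    _ ≤ F * (Real.exp B * (Real.exp l * Real.exp (-(l ^ 3 / 6)) * Real.exp (b * l))) := by gcongr
    _ = F * Real.exp (-(l ^ 3 / 6) + (b + 1) * l + B) := by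
      rw [← Real.exp_add, ← Real.exp_add, ← Real.exp_add]
      congr 2
      ring
    _ ≤ _ := by gcongr

end Pool.Agent.Helper96.AX.Up
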